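import Pool.Agent.H179R3.HF.Nearly

/-!
# `1/2`-flow-pairs: even subgraphs whose complement becomes even by adding edges
-/

namespace Pool.Agent.H179R3.HF
open Finset Pool.Agent.H160R2.HF

variable {V E : Type*} [Fintype V] [Fintype E] [DecidableEq V] [DecidableEq E] (G : OrGraph V E)

/-- The general sufficient condition: `F` is an even edge set, `κ` is a `{-1,0,1}`-valued function,
nonzero off `F`, whose net outflow over every vertex set `X` is at most `q X` in absolute value. -/
theorem exists_pair_q (F : Finset E)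
    (hF : ∀ v, Even (G.deg F v)) (κ : E → ℤ) (h1 : ∀ e, κ e = 1 ∨ κ e = -1 ∨ κ e = 0)
    (h2 : ∀ e, e ∉ F → κ e ≠ 0) (q : Finset V → ℕ)
    (hs : ∀ X : Finset V, |∑ v ∈ X, net G.t G.h κ v| ≤ q X)
    (hq : ∀ X : Finset V, (G.cut X ∩ F).card < 2 * q X → 5 * q X ≤ (G.cut X).card + 1) :
    ∃ φ₂ φ₄ : E → ℤ, G.IsHalfFlowPair φ₂ φ₄ ∧ ∀ e, φ₂ e ≠ 0 ↔ e ∈ F := by
  classical
  obtain ⟨φ₂, h21, h22⟩ := eulerian G.t G.h F (fun v => hF v)
  obtain ⟨φ₄, h41, h42⟩ := hoffman G.t G.h
    (fun e => if e ∈ F then -3 else if κ e = 1 then 2 else -3)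
    (fun e => if e ∈ F then 3 else if κ e = 1 then 3 else -2)
    (fun _ => 0) (fun e => by split_ifs <;> simp) (by simp) (by
      intro X
      let s : E → ℤ := fun e => (if G.h e ∈ X then κ e else 0) - (if G.t e ∈ X then κ e else 0)
      let N1 := univ.filter (fun e => e ∈ G.cut X ∧ e ∉ F ∧ s e = 1)
      let N2 := univ.filter (fun e => e ∈ G.cut X ∧ e ∉ F ∧ s e = -1)
      let N3 := univ.filter (fun e => e ∈ G.cut X ∧ e ∈ F ∧ s e = 1)
      let N4 := univ.filter (fun e => e ∈ G.cut X ∧ e ∈ F ∧ s e = -1)
      let N5 := univ.filter (fun e => e ∈ G.cut X ∧ e ∈ F ∧ s e = 0)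
      have c1 : (N1.card : ℤ) = ∑ e, if (e ∈ G.cut X ∧ e ∉ F ∧ s e = 1) then 1 else 0 := by
        simp only [Finset.sum_boole, N1]
      have c2 : (N2.card : ℤ) = ∑ e, if (e ∈ G.cut X ∧ e ∉ F ∧ s e = -1) then 1 else 0 := by
        simp only [Finset.sum_boole, N2]
      have c3 : (N3.card : ℤ) = ∑ e, if (e ∈ G.cut X ∧ e ∈ F ∧ s e = 1) then 1 else 0 := by
        simp only [Finset.sum_boole, N3]
      have c4 : (N4.card : ℤ) = ∑ e, if (e ∈ G.cut X ∧ e ∈ F ∧ s e = -1) then 1 else 0 := by
        simp only [Finset.sum_boole, N4]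
      have c5 : (N5.card : ℤ) = ∑ e, if (e ∈ G.cut X ∧ e ∈ F ∧ s e = 0) then 1 else 0 := by
        simp only [Finset.sum_boole, N5]
      have c6 : ((G.cut X).card : ℤ) = ∑ e, if e ∈ G.cut X then 1 else 0 := by
        simp
      have c7 : ((G.cut X ∩ F).card : ℤ) = ∑ e, if e ∈ G.cut X ∩ F then 1 else 0 := by
        simp only [Finset.sum_boole]
        congr 2
        ext e; simp
      have hff : ff G.t G.h (fun e => if e ∈ F then -3 else if κ e = 1 then 2 else -3)
          (fun e => if e ∈ F then 3 else if κ e = 1 then 3 else -2) (fun _ => 0) X =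
          3 * N1.card - 2 * N2.card + 3 * N3.card + 3 * N4.card + 3 * N5.card := by
        unfold ff
        rw [c1, c2, c3, c4, c5, Finset.mul_sum, Finset.mul_sum, Finset.mul_sum, Finset.mul_sum,
          Finset.mul_sum, ← Finset.sum_sub_distrib, ← Finset.sum_add_distrib,
          ← Finset.sum_add_distrib, ← Finset.sum_add_distrib, Finset.sum_const_zero, zero_add]
        refine Finset.sum_congr rfl fun e _ => ?_
        unfold ce
        simp only [s, OrGraph.cut, Finset.mem_filter, Finset.mem_univ, true_and]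
        by_cases he : e ∈ F
        · rcases h1 e with h | h | h <;>
          by_cases a : G.t e ∈ X <;> by_cases b : G.h e ∈ X <;> simp [a, b, he, h]
        · have h0 := h2 e he
          rcases h1 e with h | h | h
          · by_cases a : G.t e ∈ X <;> by_cases b : G.h e ∈ X <;> simp [a, b, he, h]
          · by_cases a : G.t e ∈ X <;> by_cases b : G.h e ∈ X <;> simp [a, b, he, h]
          · exact absurd h h0
      have hnet : ∑ v ∈ X, net G.t G.h κ v = (N2.card : ℤ) + N4.card - N1.card - N3.card := by
        rw [net_sum, c1, c2, c3, c4, ← Finset.sum_add_distrib, ← Finset.sum_sub_distrib,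
          ← Finset.sum_sub_distrib]
        refine Finset.sum_congr rfl fun e _ => ?_
        simp only [s, OrGraph.cut, Finset.mem_filter, Finset.mem_univ, true_and]
        by_cases he : e ∈ F
        · rcases h1 e with h | h | h <;>
          by_cases a : G.t e ∈ X <;> by_cases b : G.h e ∈ X <;> simp [a, b, he, h]
        · have h0 := h2 e he
          rcases h1 e with h | h | h
          · by_cases a : G.t e ∈ X <;> by_cases b : G.h e ∈ X <;> simp [a, b, he, h]
          · by_cases a : G.t e ∈ X <;> by_cases b : G.h e ∈ X <;> simp [a, b, he, h]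
          · exact absurd h h0
      have hcut : ((G.cut X).card : ℤ) = N1.card + N2.card + N3.card + N4.card + N5.card := by
        rw [c6, c1, c2, c3, c4, c5, ← Finset.sum_add_distrib, ← Finset.sum_add_distrib,
          ← Finset.sum_add_distrib, ← Finset.sum_add_distrib]
        refine Finset.sum_congr rfl fun e _ => ?_
        simp only [s, OrGraph.cut, Finset.mem_filter, Finset.mem_univ, true_and]
        by_cases he : e ∈ F
        · rcases h1 e with h | h | h <;>
          by_cases a : G.t e ∈ X <;> by_cases b : G.h e ∈ X <;> simp [a, b, he, h]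
        · have h0 := h2 e he
          rcases h1 e with h | h | h
          · by_cases a : G.t e ∈ X <;> by_cases b : G.h e ∈ X <;> simp [a, b, he, h]
          · by_cases a : G.t e ∈ X <;> by_cases b : G.h e ∈ X <;> simp [a, b, he, h]
          · exact absurd h h0
      have hcutF : ((G.cut X ∩ F).card : ℤ) = N3.card + N4.card + N5.card := by
        rw [c7, c3, c4, c5, ← Finset.sum_add_distrib, ← Finset.sum_add_distrib]
        refine Finset.sum_congr rfl fun e _ => ?_
        simp only [s, OrGraph.cut, Finset.mem_filter, Finset.mem_univ, true_and, Finset.mem_inter]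
        by_cases he : e ∈ F
        · rcases h1 e with h | h | h <;>
          by_cases a : G.t e ∈ X <;> by_cases b : G.h e ∈ X <;> simp [a, b, he, h]
        · simp [he]
      have hhs := G.handshake F X
      have heven : Even (∑ v ∈ X, G.deg F v) := Finset.even_sum _ (fun v _ => hF v)
      obtain ⟨k, hk⟩ := heven
      have hqX := hq X
      have hs' := hs X
      rw [hnet, abs_le] at hs'
      rw [hff]
      by_cases hf0 : (G.cut X ∩ F).card < 2 * q X
      · have := hqX hf0
        omega
      · omega)
  refine ⟨φ₂, φ₄, ⟨⟨fun e => ?_, G.isFlow_of_net h22⟩, ⟨fun e => ?_, G.isFlow_of_net h42⟩,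
    fun e he => ?_⟩, fun e => ?_⟩
  · by_cases he : e ∈ F
    · rcases (h21 e).1 he with h | h <;> rw [h] <;> simp
    · rw [(h21 e).2 he]; simp
  · have h1 := h41 e
    rw [abs_le]
    push_cast
    split_ifs at h1 <;> constructor <;> omega
  · have he' : e ∉ F := by
      intro heF
      rcases (h21 e).1 heF with h | h <;> rw [h] at he <;> simp at he
    have h1 := h41 e
    rw [if_neg he', if_neg he'] at h1
    rw [le_abs]
    split_ifs at h1
    · left; exact h1.1
    · right; omega
  · constructor
    · intro h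
      by_contra he
      exact h ((h21 e).2 he)
    · intro he
      rcases (h21 e).1 he with h | h <;> rw [h] <;> simp

/-- The pairing criterion for arbitrary graphs. -/
theorem exists_pair_added {I : Type*} [Fintype I] [DecidableEq I] (a b : I → V) (F K : Finset E)
    (hF : ∀ v, Even (G.deg F v)) (hFK : ∀ g, g ∈ F ∨ g ∈ K)
    (hK : ∀ w, Even (G.deg K w + (univ.filter (fun i => a i = w)).card +
      (univ.filter (fun i => b i = w)).card))
    (hq : ∀ X : Finset V, (G.cut X ∩ F).card < 2 * (univ.filter (fun i => ¬ (a i ∈ X ↔ b i ∈ X))).card →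
      5 * (univ.filter (fun i => ¬ (a i ∈ X ↔ b i ∈ X))).card ≤ (G.cut X).card + 1) :
    ∃ φ₂ φ₄ : E → ℤ, G.IsHalfFlowPair φ₂ φ₄ ∧ ∀ e, φ₂ e ≠ 0 ↔ e ∈ F := by
  classical
  let t' : E ⊕ I → V := Sum.elim G.t a
  let h' : E ⊕ I → V := Sum.elim G.h b
  have hcard : ∀ (k : E → V) (c : I → V) (w : V),
      ((K.disjSum univ).filter (fun o => (Sum.elim k c : E ⊕ I → V) o = w)).card =
        (K.filter (fun g => k g = w)).card + (univ.filter (fun i => c i = w)).card := by
    intro k c w
    rw [Finset.card_filter, Finset.sum_disjSum, Finset.card_filter, Finset.card_filter]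
    rfl
  obtain ⟨ψ, hψ1, hψ2⟩ := eulerian t' h' (K.disjSum univ) (by
    intro w
    have e1 := hcard G.t a w
    have e2 := hcard G.h b w
    change Even (((K.disjSum univ).filter (fun o => (Sum.elim G.t a : E ⊕ I → V) o = w)).card +
      ((K.disjSum univ).filter (fun o => (Sum.elim G.h b : E ⊕ I → V) o = w)).card)
    rw [e1, e2]
    have h1 := hK w
    unfold OrGraph.deg at h1
    have h2 : (K.filter (fun e => G.t e = w)).card + (univ.filter (fun i => a i = w)).card +
        ((K.filter (fun e => G.h e = w)).card + (univ.filter (fun i => b i = w)).card) =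
        (K.filter (fun e => G.t e = w)).card + (K.filter (fun e => G.h e = w)).card +
          (univ.filter (fun i => a i = w)).card + (univ.filter (fun i => b i = w)).card := by
      ring
    rw [h2]
    exact h1)
  have hI : ∀ i, ψ (Sum.inr i) = 1 ∨ ψ (Sum.inr i) = -1 := fun i =>
    (hψ1 (Sum.inr i)).1 (by simp)
  refine exists_pair_q G F hF (fun g => ψ (Sum.inl g)) ?_ ?_
    (fun X => (univ.filter (fun i => ¬ (a i ∈ X ↔ b i ∈ X))).card) ?_ hq
  · intro g
    by_cases hg : g ∈ K
    · rcases (hψ1 (Sum.inl g)).1 (by simpa using hg) with h | h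
      · left; exact h
      · right; left; exact h
    · right; right; exact (hψ1 (Sum.inl g)).2 (by simpa using hg)
  · intro g hg
    have hgK : g ∈ K := (hFK g).resolve_left hg
    rcases (hψ1 (Sum.inl g)).1 (by simpa using hgK) with h | h <;> rw [h] <;> decide
  · intro X
    have h1 : ∑ w ∈ X, net t' h' ψ w = 0 := Finset.sum_eq_zero fun w _ => hψ2 w
    rw [net_sum, Fintype.sum_sum_type] at h1
    change (∑ g, ((if G.t g ∈ X then ψ (Sum.inl g) else 0) -
        (if G.h g ∈ X then ψ (Sum.inl g) else 0))) +
      ∑ i, ((if a i ∈ X then ψ (Sum.inr i) else 0) -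
        (if b i ∈ X then ψ (Sum.inr i) else 0)) = 0 at h1
    rw [net_sum]
    have h2 : ∑ g, ((if G.t g ∈ X then ψ (Sum.inl g) else 0) -
        (if G.h g ∈ X then ψ (Sum.inl g) else 0)) =
        - ∑ i, ((if a i ∈ X then ψ (Sum.inr i) else 0) -
          (if b i ∈ X then ψ (Sum.inr i) else 0)) := by linarith
    rw [h2, abs_neg, Finset.card_filter]
    push_cast
    refine (Finset.abs_sum_le_sum_abs _ _).trans (Finset.sum_le_sum fun i _ => ?_)
    rcases hI i with h | h <;> rw [h] <;>
      by_cases x : a i ∈ X <;> by_cases y : b i ∈ X <;> simp [x, y]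

end Pool.Agent.H179R3.HF
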