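import Pool.Agent.H160R2.HF.Final

/-!
# Choosing a nowhere-zero `ℤ₂ × ℤ₂`-flow of `G - e` that avoids a value on every 3-cut through `e`
-/

namespace Pool.Agent.H179R3.HF
open Finset Pool.Agent.H160R2.HF

/-- the Klein four-group -/
abbrev K4 := ZMod 2 × ZMod 2

theorem k4_add_self : ∀ x : K4, x + x = 0 := by decide

/-- transvection -/
def tr (c x : K4) : K4 :=
  (x.1 + (x.1 * c.2 + x.2 * c.1) * c.1, x.2 + (x.1 * c.2 + x.2 * c.1) * c.2)

theorem tr_add : ∀ c x y : K4, tr c (x + y) = tr c x + tr c y := by decide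
theorem tr_zero : ∀ c : K4, tr c 0 = 0 := by decide
theorem tr_self : ∀ c : K4, tr c c = c := by decide
theorem tr_ne_zero : ∀ c x : K4, x ≠ 0 → tr c x ≠ 0 := by decide
theorem tr_top : ∀ c x : K4, c ≠ 0 → c ≠ (1, 1) → tr c x = (1, 1) →
    x ≠ 0 ∧ x ≠ c ∧ x ≠ (1, 1) := by decide

/-- `tr` as a homomorphism -/
def trHom (c : K4) : K4 →+ K4 where
  toFun := tr c
  map_zero' := tr_zero c
  map_add' := tr_add c

variable {V E : Type*} [Fintype V] [Fintype E] [DecidableEq V] [DecidableEq E] (G : OrGraph V E)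

/-- conservation for functions with values in the Klein four-group -/
def IsZ (f : E → K4) : Prop := ∀ v, (∑ e with G.t e = v, f e) + ∑ e with G.h e = v, f e = 0

theorem IsZ.cut_sum {f : E → K4} (hf : IsZ G f) (X : Finset V) : ∑ e ∈ G.cut X, f e = 0 := by
  have h1 : ∑ v ∈ X, ((∑ e with G.t e = v, f e) + ∑ e with G.h e = v, f e) = 0 :=
    Finset.sum_eq_zero fun v _ => hf v
  rw [Finset.sum_add_distrib] at h1
  have h2 : ∀ k : E → V, ∑ v ∈ X, ∑ e with k e = v, f e = ∑ e, if k e ∈ X then f e else 0 := by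
    intro k
    simp_rw [Finset.sum_filter]
    rw [Finset.sum_comm]
    refine Finset.sum_congr rfl fun e _ => ?_
    simp
  rw [h2, h2, ← Finset.sum_add_distrib] at h1
  rw [← h1, OrGraph.cut, Finset.sum_filter]
  refine Finset.sum_congr rfl fun e _ => ?_
  have := k4_add_self (f e)
  by_cases a : G.t e ∈ X <;> by_cases b : G.h e ∈ X <;> simp [a, b, this]

variable {e : E} {f : E → K4}

theorem three_le (hb : ∀ X : Finset V, (G.cut X).card ≠ 1) (hf : IsZ G f)
    (h0 : ∀ g, f g = 0 ↔ g = e) {X : Finset V} (ht : G.t e ∈ X) (hh : G.h e ∉ X) :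
    3 ≤ (G.cut X).card := by
  have he : e ∈ G.cut X := by simp [OrGraph.cut, ht, hh]
  have hpos : 0 < (G.cut X).card := Finset.card_pos.2 ⟨e, he⟩
  have h1 := hb X
  by_contra hlt
  have h2 : (G.cut X).card = 2 := by omega
  obtain ⟨a, b, hab, hX⟩ := Finset.card_eq_two.1 h2
  have hs := hf.cut_sum G X
  rw [hX, Finset.sum_pair hab] at hs
  rw [hX, Finset.mem_insert, Finset.mem_singleton] at he
  rcases he with he | he
  · have : f a = 0 := (h0 a).2 he.symm
    rw [this, zero_add] at hs
    exact hab (he.symm.trans ((h0 b).1 hs).symm)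
  · have : f b = 0 := (h0 b).2 he.symm
    rw [this, add_zero] at hs
    exact hab (((h0 a).1 hs).trans he)

theorem same_val (hf : IsZ G f) (h0 : ∀ g, f g = 0 ↔ g = e) {X : Finset V}
    (ht : G.t e ∈ X) (hh : G.h e ∉ X) (h3 : (G.cut X).card = 3) {g g' : E}
    (hg : g ∈ G.cut X) (hg' : g' ∈ G.cut X) (hge : g ≠ e) (hge' : g' ≠ e) : f g = f g' := by
  by_cases hgg : g = g'
  · rw [hgg]
  have he : e ∈ G.cut X := by simp [OrGraph.cut, ht, hh]
  have hsub : ({e, g, g'} : Finset E) ⊆ G.cut X := by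
    intro x hx
    simp only [Finset.mem_insert, Finset.mem_singleton] at hx
    rcases hx with rfl | rfl | rfl <;> assumption
  have hcard : ({e, g, g'} : Finset E).card = 3 := by
    rw [Finset.card_insert_of_notMem, Finset.card_pair hgg]
    simp only [Finset.mem_insert, Finset.mem_singleton, not_or]
    exact ⟨Ne.symm hge, Ne.symm hge'⟩
  have heq := Finset.eq_of_subset_of_card_le hsub (by rw [hcard, h3])
  have hs := hf.cut_sum G X
  rw [← heq, Finset.sum_insert, Finset.sum_pair hgg, (h0 e).2 rfl, zero_add] at hs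
  · have h2 := k4_add_self (f g')
    have h4 : f g + f g' = f g' + f g' := by rw [hs, h2]
    exact add_right_cancel h4
  · simp only [Finset.mem_insert, Finset.mem_singleton, not_or]
    exact ⟨Ne.symm hge, Ne.symm hge'⟩

/-- the sets whose boundary is a 3-cut through `e` -/
def Rel (e : E) (W X : Finset V) : Prop :=
  G.t e ∈ X ∧ G.h e ∉ X ∧ (G.cut X).card = 3 ∧ X ⊆ W

theorem submod (X Z : Finset V) :
    (G.cut (X ∩ Z)).card + (G.cut (X ∪ Z)).card ≤ (G.cut X).card + (G.cut Z).card := by
  have h1 : G.cut (X ∩ Z) ∪ G.cut (X ∪ Z) ⊆ G.cut X ∪ G.cut Z := by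
    intro g hg
    simp only [OrGraph.cut, Finset.mem_union, Finset.mem_filter, Finset.mem_univ, true_and,
      Finset.mem_inter] at hg ⊢
    tauto
  have h2 : G.cut (X ∩ Z) ∩ G.cut (X ∪ Z) ⊆ G.cut X ∩ G.cut Z := by
    intro g hg
    simp only [OrGraph.cut, Finset.mem_union, Finset.mem_filter, Finset.mem_univ, true_and,
      Finset.mem_inter] at hg ⊢
    tauto
  have h3 := Finset.card_le_card h1
  have h4 := Finset.card_le_card h2
  have h5 := Finset.card_union_add_card_inter (G.cut (X ∩ Z)) (G.cut (X ∪ Z))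
  have h6 := Finset.card_union_add_card_inter (G.cut X) (G.cut Z)
  omega

theorem nested_aux (hf : IsZ G f)
    (h0 : ∀ g, f g = 0 ↔ g = e) {W : Finset V}
    (hW : ∀ S ⊆ W, G.t e ∉ S → G.cut S = ∅ → S = ∅) {X Z : Finset V}
    (hX : Rel G e W X) (hZ : Rel G e W Z) {x z : K4}
    (hx : ∀ g ∈ G.cut X, g ≠ e → f g = x) (hz : ∀ g ∈ G.cut Z, g ≠ e → f g = z) (hxz : x ≠ z)
    {g : E} (hg : g ∈ G.cut (X ∩ Z)) (hge : g ≠ e) (hgx : f g = x)
    (h3 : (G.cut (X ∩ Z)).card = 3) : X ⊆ Z := by
  obtain ⟨x1, x2, x3, x4⟩ := hX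
  obtain ⟨z1, z2, z3, z4⟩ := hZ
  have hsub : G.cut (X ∩ Z) ⊆ G.cut X := by
    intro g' hg'
    by_cases hge' : g' = e
    · rw [hge']; simp [OrGraph.cut, x1, x2]
    have h4 : f g' = x := by
      rw [← hgx]
      exact same_val G hf h0 (Finset.mem_inter.2 ⟨x1, z1⟩)
        (fun h => x2 (Finset.mem_inter.1 h).1) h3 hg' hg hge' hge
    by_contra hcon
    have h5 : g' ∈ G.cut Z := by
      simp only [OrGraph.cut, Finset.mem_filter, Finset.mem_univ, true_and,
        Finset.mem_inter] at hg' hcon ⊢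
      tauto
    exact hxz (h4.symm.trans (hz g' h5 hge'))
  have heq : G.cut (X ∩ Z) = G.cut X :=
    Finset.eq_of_subset_of_card_le hsub (by rw [h3, x3])
  have hS : X \ Z = ∅ := by
    apply hW
    · exact Finset.sdiff_subset.trans x4
    · intro h
      exact (Finset.mem_sdiff.1 h).2 z1
    · rw [Finset.eq_empty_iff_forall_notMem]
      intro g' hg'
      have hge' : g' ≠ e := by
        rintro rfl
        simp only [OrGraph.cut, Finset.mem_filter, Finset.mem_univ, true_and,
          Finset.mem_sdiff] at hg'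
        tauto
      by_cases c1 : g' ∈ G.cut X
      · have c2 : g' ∈ G.cut (X ∩ Z) := by rw [heq]; exact c1
        have c3 : g' ∈ G.cut Z := by
          simp only [OrGraph.cut, Finset.mem_filter, Finset.mem_univ, true_and,
            Finset.mem_sdiff, Finset.mem_inter] at hg' c1 c2 ⊢
          tauto
        exact hxz ((hx g' c1 hge').symm.trans (hz g' c3 hge'))
      · have c2 : g' ∉ G.cut (X ∩ Z) := by rw [heq]; exact c1
        simp only [OrGraph.cut, Finset.mem_filter, Finset.mem_univ, true_and,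
          Finset.mem_sdiff, Finset.mem_inter] at hg' c1 c2
        tauto
  exact Finset.sdiff_eq_empty_iff_subset.1 hS

theorem nested (hb : ∀ X : Finset V, (G.cut X).card ≠ 1) (hf : IsZ G f)
    (h0 : ∀ g, f g = 0 ↔ g = e) {W : Finset V}
    (hW : ∀ S ⊆ W, G.t e ∉ S → G.cut S = ∅ → S = ∅) {X Z : Finset V}
    (hX : Rel G e W X) (hZ : Rel G e W Z) {x z : E} (hx : x ∈ G.cut X) (hz : z ∈ G.cut Z)
    (hxe : x ≠ e) (hze : z ≠ e) (hxz : f x ≠ f z) : X ⊆ Z ∨ Z ⊆ X := by
  have hX' := hX
  have hZ' := hZ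
  obtain ⟨x1, x2, x3, x4⟩ := hX'
  obtain ⟨z1, z2, z3, z4⟩ := hZ'
  have hs := submod G X Z
  have hi : G.t e ∈ X ∩ Z := Finset.mem_inter.2 ⟨x1, z1⟩
  have hi' : G.h e ∉ X ∩ Z := fun h => x2 (Finset.mem_inter.1 h).1
  have a1 := three_le G hb hf h0 hi hi'
  have a2 := three_le G hb hf h0 (X := X ∪ Z) (Finset.mem_union_left _ x1) (by
    rw [Finset.mem_union]; tauto)
  have h3 : (G.cut (X ∩ Z)).card = 3 := by omega
  have hxx : ∀ g ∈ G.cut X, g ≠ e → f g = f x := fun g hg hge =>
    same_val G hf h0 x1 x2 x3 hg hx hge hxe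
  have hzz : ∀ g ∈ G.cut Z, g ≠ e → f g = f z := fun g hg hge =>
    same_val G hf h0 z1 z2 z3 hg hz hge hze
  obtain ⟨g, hg, hge⟩ : ∃ g ∈ G.cut (X ∩ Z), g ≠ e := by
    by_contra hcon
    push Not at hcon
    have : G.cut (X ∩ Z) ⊆ {e} := fun g hg => Finset.mem_singleton.2 (hcon g hg)
    have := Finset.card_le_card this
    rw [Finset.card_singleton] at this
    omega
  have hor : g ∈ G.cut X ∨ g ∈ G.cut Z := by
    simp only [OrGraph.cut, Finset.mem_filter, Finset.mem_univ, true_and,
      Finset.mem_inter] at hg ⊢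
    tauto
  rcases hor with h | h
  · left
    exact nested_aux G hf h0 hW hX hZ hxx hzz hxz hg hge (hxx g h hge) h3
  · right
    rw [Finset.inter_comm] at hg h3
    exact nested_aux G hf h0 hW hZ hX hzz hxx (Ne.symm hxz) hg hge (hzz g h hge) h3

/-- the induction -/
theorem chain_ind (hb : ∀ X : Finset V, (G.cut X).card ≠ 1) {W : Finset V}
    (hW : ∀ S ⊆ W, G.t e ∉ S → G.cut S = ∅ → S = ∅) (f₀ : E → K4) (hf₀ : IsZ G f₀)
    (h0₀ : ∀ g, f₀ g = 0 ↔ g = e) (n : ℕ) :
    ∃ f : E → K4, IsZ G f ∧ (∀ g, f g = 0 ↔ g = e) ∧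
      ∀ X, Rel G e W X → X.card ≤ n → ∀ g ∈ G.cut X, f g ≠ (1, 1) := by
  classical
  induction n with
  | zero =>
    refine ⟨f₀, hf₀, h0₀, fun X hX hn => ?_⟩
    have : X = ∅ := Finset.card_eq_zero.1 (by omega)
    have h1 := hX.1
    rw [this] at h1
    simp at h1
  | succ n ih =>
    obtain ⟨f, hf, h0, hgood⟩ := ih
    by_cases hbad : ∀ X, Rel G e W X → X.card ≤ n + 1 → ∀ g ∈ G.cut X, f g ≠ (1, 1)
    · exact ⟨f, hf, h0, hbad⟩
    push Not at hbad
    obtain ⟨X, hX, hXn, gX, hgX, hgX1⟩ := hbad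
    have hXn' : X.card = n + 1 := by
      by_contra hne
      exact hgood X hX (by omega) gX hgX hgX1
    have hgXe : gX ≠ e := by
      rintro rfl
      rw [(h0 gX).2 rfl] at hgX1
      revert hgX1
      decide
    -- the set `Y` and the value `c`
    obtain ⟨Y, c, hc0, hc1, hYc, hYX, hYn, hB, hC⟩ : ∃ (Y : Finset V) (c : K4), c ≠ 0 ∧
        c ≠ (1, 1) ∧ (∀ g ∈ G.cut Y, f g = c ∨ f g = 0) ∧ Y ⊆ X ∧ Y.card ≤ n ∧
        (∀ Z, Rel G e W Z → Z ⊆ X → Z.card ≤ n → (∃ g ∈ G.cut Z, g ≠ e ∧ f g ≠ c) → Z ⊆ Y) ∧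
        (∀ Z, Rel G e W Z → n + 1 ≤ Z.card → (∃ g ∈ G.cut Z, f g = (1, 1)) → Y ⊆ Z) := by
      let S : Finset (Finset V) := univ.filter (fun Y => Rel G e W Y ∧ Y ⊆ X ∧ Y.card ≤ n)
      by_cases hS : S.Nonempty
      · obtain ⟨Y, hY, hmax⟩ := Finset.exists_max_image S Finset.card hS
        rw [Finset.mem_filter] at hY
        obtain ⟨_, hYr, hYX, hYn⟩ := hY
        obtain ⟨gY, hgY, hgYe⟩ : ∃ g ∈ G.cut Y, g ≠ e := by
          by_contra hcon
          push Not at hcon
          have : G.cut Y ⊆ {e} := fun g hg => Finset.mem_singleton.2 (hcon g hg)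
          have := Finset.card_le_card this
          rw [Finset.card_singleton] at this
          have := hYr.2.2.1
          omega
        have hYc : ∀ g ∈ G.cut Y, g ≠ e → f g = f gY := fun g hg hge =>
          same_val G hf h0 hYr.1 hYr.2.1 hYr.2.2.1 hg hgY hge hgYe
        refine ⟨Y, f gY, fun h => hgYe ((h0 gY).1 h), hgood Y hYr hYn gY hgY, ?_, hYX, hYn,
          ?_, ?_⟩
        · intro g hg
          by_cases hge : g = e
          · right; exact (h0 g).2 hge
          · left; exact hYc g hg hge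
        · rintro Z hZ hZX hZn ⟨g, hg, hge, hgc⟩
          rcases nested G hb hf h0 hW hZ hYr hg hgY hge hgYe hgc with h | h
          · exact h
          · have h1 := hmax Z (Finset.mem_filter.2 ⟨mem_univ _, hZ, hZX, hZn⟩)
            rw [← Finset.eq_of_subset_of_card_le h h1]
        · rintro Z hZ hZn ⟨g, hg, hg1⟩
          have hge : g ≠ e := by
            rintro rfl
            rw [(h0 g).2 rfl] at hg1
            revert hg1
            decide
          have hne : f g ≠ f gY := by
            rw [hg1]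
            exact (hgood Y hYr hYn gY hgY).symm
          rcases nested G hb hf h0 hW hZ hYr hg hgY hge hgYe hne with h | h
          · have := Finset.card_le_card h
            omega
          · exact h
      · refine ⟨∅, (1, 0), by decide, by decide, by simp [OrGraph.cut], Finset.empty_subset _,
          by simp, ?_, fun _ _ _ _ => Finset.empty_subset _⟩
        intro Z hZ hZX hZn _
        exact absurd ⟨Z, Finset.mem_filter.2 ⟨mem_univ _, hZ, hZX, hZn⟩⟩ hS
    -- the new flow
    let f' : E → K4 := fun g => if G.t g ∈ Y ∧ G.h g ∈ Y then f g else tr c (f g)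
    have hfY : ∀ g, (G.t g ∈ Y ∨ G.h g ∈ Y) → f' g = f g := by
      intro g hg
      by_cases hin : G.t g ∈ Y ∧ G.h g ∈ Y
      · simp only [f', if_pos hin]
      · simp only [f', if_neg hin]
        have : g ∈ G.cut Y := by
          simp only [OrGraph.cut, Finset.mem_filter, Finset.mem_univ, true_and]
          tauto
        rcases hYc g this with h | h
        · rw [h, tr_self]
        · rw [h, tr_zero]
    refine ⟨f', ?_, ?_, ?_⟩
    · intro v
      by_cases hv : v ∈ Y
      · rw [← hf v]
        congr 1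
        · refine Finset.sum_congr rfl fun g hg => hfY g ?_
          rw [Finset.mem_filter] at hg
          left; rw [hg.2]; exact hv
        · refine Finset.sum_congr rfl fun g hg => hfY g ?_
          rw [Finset.mem_filter] at hg
          right; rw [hg.2]; exact hv
      · have h1 : ∑ g with G.t g = v, f' g = trHom c (∑ g with G.t g = v, f g) := by
          rw [map_sum]
          refine Finset.sum_congr rfl fun g hg => ?_
          rw [Finset.mem_filter] at hg
          have : ¬ (G.t g ∈ Y ∧ G.h g ∈ Y) := fun h => hv (hg.2 ▸ h.1)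
          simp only [f', if_neg this]
          rfl
        have h2 : ∑ g with G.h g = v, f' g = trHom c (∑ g with G.h g = v, f g) := by
          rw [map_sum]
          refine Finset.sum_congr rfl fun g hg => ?_
          rw [Finset.mem_filter] at hg
          have : ¬ (G.t g ∈ Y ∧ G.h g ∈ Y) := fun h => hv (hg.2 ▸ h.2)
          simp only [f', if_neg this]
          rfl
        rw [h1, h2, ← map_add, hf v, map_zero]
    · intro g
      simp only [f']
      split_ifs
      · exact h0 g
      · constructor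
        · intro h
          by_contra hne
          exact tr_ne_zero c (f g) (fun h' => hne ((h0 g).1 h')) h
        · intro h
          rw [(h0 g).2 h, tr_zero]
    · intro Z hZ hZn g hg hg1
      have hg1' := hg1
      simp only [f'] at hg1'
      split_ifs at hg1' with hin
      · -- `g` inside `Y`
        have hZn' : n + 1 ≤ Z.card := by
          by_contra hlt
          exact hgood Z hZ (by omega) g hg hg1'
        have hYZ := hC Z hZ hZn' ⟨g, hg, hg1'⟩
        have h1 := hYZ hin.1
        have h2 := hYZ hin.2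
        simp only [OrGraph.cut, Finset.mem_filter, Finset.mem_univ, true_and] at hg
        tauto
      · obtain ⟨s0, sc, s1⟩ := tr_top c (f g) hc0 hc1 hg1'
        have hge : g ≠ e := fun h => s0 ((h0 g).2 h)
        have hZX : Z ⊆ X := by
          have hne : f g ≠ f gX := by rw [hgX1]; exact s1
          rcases nested G hb hf h0 hW hZ hX hg hgX hge hgXe hne with h | h
          · exact h
          · rw [Finset.eq_of_subset_of_card_le h (by omega)]
        have hZn' : Z.card ≤ n := by
          by_contra hlt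
          have hZX' : Z = X := Finset.eq_of_subset_of_card_le hZX (by omega)
          rw [hZX'] at hg
          have := same_val G hf h0 hX.1 hX.2.1 hX.2.2.1 hg hgX hge hgXe
          exact s1 (this.trans hgX1)
        have hZY := hB Z hZ hZX hZn' ⟨g, hg, hge, sc⟩
        have hgY : g ∈ G.cut Y := by
          simp only [OrGraph.cut, Finset.mem_filter, Finset.mem_univ, true_and] at hg ⊢
          intro h
          apply hg
          by_cases a : G.t g ∈ Z
          · exact absurd ⟨hZY a, h.1 (hZY a)⟩ hin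
          · by_cases b : G.h g ∈ Z
            · exact absurd ⟨h.2 (hZY b), hZY b⟩ hin
            · tauto
        rcases hYc g hgY with h | h
        · exact sc h
        · exact s0 h

/-- a nowhere-zero `ℤ₂ × ℤ₂`-flow of `G - e` can be chosen so that the edges of value `(0,1)` or
`(1,0)` meet every 3-cut through `e` -/
theorem chain (hb : ∀ X : Finset V, (G.cut X).card ≠ 1) (f₀ : E → K4) (hf₀ : IsZ G f₀)
    (h0₀ : ∀ g, f₀ g = 0 ↔ g = e) :
    ∃ f : E → K4, IsZ G f ∧ (∀ g, f g = 0 ↔ g = e) ∧
      ∀ X, G.t e ∈ X → G.h e ∉ X → (G.cut X).card = 3 → ∀ g ∈ G.cut X, f g ≠ (1, 1) := by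
  classical
  let W : Finset V := univ.filter (fun w => (G.sub univ).Reachable (G.t e) w)
  have hWcl : G.cut W = ∅ := by
    rw [Finset.eq_empty_iff_forall_notMem]
    intro g hg
    simp only [OrGraph.cut, Finset.mem_filter, Finset.mem_univ, true_and] at hg
    apply hg
    by_cases hth : G.t g = G.h g
    · rw [hth]
    have hadj : (G.sub univ).Adj (G.t g) (G.h g) := by
      rw [OrGraph.sub, SimpleGraph.fromRel_adj]
      exact ⟨hth, Or.inl ⟨g, mem_univ _, rfl, rfl⟩⟩
    simp only [W, Finset.mem_filter, Finset.mem_univ, true_and]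
    exact ⟨fun h => h.trans hadj.reachable, fun h => h.trans hadj.symm.reachable⟩
  have hW : ∀ S ⊆ W, G.t e ∉ S → G.cut S = ∅ → S = ∅ := by
    intro S hS hte hcut
    rw [Finset.eq_empty_iff_forall_notMem]
    intro w hw
    have hw' := hS hw
    simp only [W, Finset.mem_filter, Finset.mem_univ, true_and] at hw'
    have := G.reachable_mem univ S (by
      intro g _
      by_contra hcon
      have : g ∈ G.cut S := by simp [OrGraph.cut, hcon]
      rw [hcut] at this
      simp at this) hw'
    exact hte (this.2 hw)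
  obtain ⟨f, hf, h0, hgood⟩ := chain_ind G hb hW f₀ hf₀ h0₀ (Fintype.card V)
  refine ⟨f, hf, h0, fun X h1 h2 h3 g hg => ?_⟩
  have hteW : G.t e ∈ W := by simp [W]
  have hsub : G.cut (X ∩ W) ⊆ G.cut X := by
    intro g' hg'
    have hgW : g' ∉ G.cut W := by rw [hWcl]; simp
    simp only [OrGraph.cut, Finset.mem_filter, Finset.mem_univ, true_and,
      Finset.mem_inter] at hg' hgW ⊢
    tauto
  have h4 := three_le G hb hf h0 (X := X ∩ W) (Finset.mem_inter.2 ⟨h1, hteW⟩)
    (fun h => h2 (Finset.mem_inter.1 h).1)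
  have heq : G.cut (X ∩ W) = G.cut X := Finset.eq_of_subset_of_card_le hsub (by omega)
  refine hgood (X ∩ W) ⟨Finset.mem_inter.2 ⟨h1, hteW⟩, fun h => h2 (Finset.mem_inter.1 h).1, ?_,
    Finset.inter_subset_right⟩ (Finset.card_le_univ _) g (by rw [heq]; exact hg)
  rw [heq, h3]

end Pool.Agent.H179R3.HF
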