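import Pool.Agent.H160R2.HF.Defs

/-!
# Cubic graphs with a 2-factor into circuits of length five: definition
-/

set_option autoImplicit false

universe u v

namespace Pool.Agent.H179R3.HF
open Finset Pool.Agent.H160R2.HF

/-- The graph with vertices `(c, i)`, where `c` is in `ι` and `i` is an integer modulo five.  Its
edges are the edges from `(c, i)` to `(c, i + 1)`, which form a five-circuit for every `c` (these
edges are called `Sum.inl (c, i)`), and the edges in `M`, from `tM e` to `hM e` (called
`Sum.inr e`).  Every graph with a 2-factor whose circuits all have length five is of this form. -/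
def fiveGraph {ι : Type u} {M : Type v} (tM hM : M → ι × Fin 5) :
    OrGraph (ι × Fin 5) ((ι × Fin 5) ⊕ M) where
  t := Sum.elim id tM
  h := Sum.elim (fun p => (p.1, p.2 + 1)) hM

end Pool.Agent.H179R3.HF
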