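import Pool.Agent.H179R3.HF.SumDefs

/-!
# Replacing parts of a graph by fragments of the Petersen graph: framework
-/

set_option autoImplicit false

namespace Pool.Agent.H179R3.HF
open Finset Pool.Agent.H160R2.HF

/-- the value pairs allowed on an edge in a `1/2`-flow-pair -/
def Ok (a b : ℤ) : Prop := |a| ≤ 1 ∧ |b| ≤ 3 ∧ (a = 0 → 2 ≤ |b|)

/-- conservation at the vertices of the inner part -/
def Fits {N D I : Type*} [Fintype D] [Fintype I] [DecidableEq N] (b : D → N) (t₁ h₁ : I → N)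
    (z : D → ℤ) (y : I → ℤ) : Prop :=
  ∀ n, ∑ i with t₁ i = n, y i = (∑ d with b d = n, z d) + ∑ i with h₁ i = n, y i

theorem isFlow_glue {W N Eo D I : Type*} [Fintype W] [Fintype N] [Fintype Eo] [Fintype D]
    [Fintype I] [DecidableEq W] [DecidableEq N]
    (t₀ h₀ : Eo → W) (a : D → W) (b : D → N) (t₁ h₁ : I → N) (φ : Eo ⊕ D ⊕ I → ℤ) :
    (glue t₀ h₀ a b t₁ h₁).IsFlow φ ↔
      (∀ w, (∑ e with t₀ e = w, φ (Sum.inl e)) + ∑ d with a d = w, φ (Sum.inr (Sum.inl d)) =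
        ∑ e with h₀ e = w, φ (Sum.inl e)) ∧
      Fits b t₁ h₁ (fun d => φ (Sum.inr (Sum.inl d))) (fun i => φ (Sum.inr (Sum.inr i))) := by
  unfold OrGraph.IsFlow Fits
  rw [Sum.forall]
  have h1 : ∀ w, (∑ e with (glue t₀ h₀ a b t₁ h₁).t e = Sum.inl w, φ e) =
      (∑ e with t₀ e = w, φ (Sum.inl e)) + ∑ d with a d = w, φ (Sum.inr (Sum.inl d)) := by
    intro w
    rw [Finset.sum_filter, Fintype.sum_sum_type, Fintype.sum_sum_type, Finset.sum_filter,
      Finset.sum_filter]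
    simp [glue]
  have h2 : ∀ w, (∑ e with (glue t₀ h₀ a b t₁ h₁).h e = Sum.inl w, φ e) =
      ∑ e with h₀ e = w, φ (Sum.inl e) := by
    intro w
    rw [Finset.sum_filter, Fintype.sum_sum_type, Fintype.sum_sum_type, Finset.sum_filter]
    simp [glue]
  have h3 : ∀ n, (∑ e with (glue t₀ h₀ a b t₁ h₁).t e = Sum.inr n, φ e) =
      ∑ i with t₁ i = n, φ (Sum.inr (Sum.inr i)) := by
    intro n
    rw [Finset.sum_filter, Fintype.sum_sum_type, Fintype.sum_sum_type, Finset.sum_filter]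
    simp [glue]
  have h4 : ∀ n, (∑ e with (glue t₀ h₀ a b t₁ h₁).h e = Sum.inr n, φ e) =
      (∑ d with b d = n, φ (Sum.inr (Sum.inl d))) +
        ∑ i with h₁ i = n, φ (Sum.inr (Sum.inr i)) := by
    intro n
    rw [Finset.sum_filter, Fintype.sum_sum_type, Fintype.sum_sum_type, Finset.sum_filter,
      Finset.sum_filter]
    simp [glue]
  simp only [h1, h2, h3, h4]

theorem pair_iff_ok {V E : Type*} [Fintype V] [Fintype E] [DecidableEq V] (G : OrGraph V E)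
    (φ₂ φ₄ : E → ℤ) : G.IsHalfFlowPair φ₂ φ₄ ↔
      G.IsFlow φ₂ ∧ G.IsFlow φ₄ ∧ ∀ e, Ok (φ₂ e) (φ₄ e) := by
  unfold OrGraph.IsHalfFlowPair OrGraph.IsKFlow Ok
  push_cast
  constructor
  · rintro ⟨⟨h1, h2⟩, ⟨h3, h4⟩, h5⟩
    exact ⟨h2, h4, fun e => ⟨by have := h1 e; linarith, by have := h3 e; linarith, h5 e⟩⟩
  · rintro ⟨h2, h4, h⟩
    exact ⟨⟨fun e => by have := (h e).1; linarith, h2⟩,
      ⟨fun e => by have := (h e).2.1; linarith, h4⟩, fun e => (h e).2.2⟩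

/-- the eighteen allowed value pairs -/
def val : ℕ → ℤ × ℤ
  | 0 => (0, 2)
  | 1 => (0, -2)
  | 2 => (0, 3)
  | 3 => (0, -3)
  | 4 => (1, -3)
  | 5 => (1, -2)
  | 6 => (1, -1)
  | 7 => (1, 0)
  | 8 => (1, 1)
  | 9 => (1, 2)
  | 10 => (1, 3)
  | 11 => (-1, -3)
  | 12 => (-1, -2)
  | 13 => (-1, -1)
  | 14 => (-1, 0)
  | 15 => (-1, 1)
  | 16 => (-1, 2)
  | 17 => (-1, 3)
  | _ => (0, 2)

/-- decoding of a table entry: the value pair of the `i`-th inner edge -/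
def yv (n i : ℕ) : ℤ × ℤ := val ((n / 18 ^ i) % 18)

theorem val_ok : ∀ c < 18, Ok (val c).1 (val c).2 := by
  unfold Ok
  decide

theorem yv_ok (n i : ℕ) : Ok (yv n i).1 (yv n i).2 := val_ok _ (Nat.mod_lt _ (by norm_num))

/-- Boolean form of `Ok` -/
def okb (x : ℤ × ℤ) : Bool :=
  decide (x.1.natAbs ≤ 1) && (decide (x.2.natAbs ≤ 3) &&
    (decide (x.1 ≠ 0) || decide (2 ≤ x.2.natAbs)))

theorem okb_of {a b : ℤ} (h : Ok a b) : okb (a, b) = true := by
  obtain ⟨h1, h2, h3⟩ := h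
  rw [abs_le] at h1 h2
  unfold okb
  simp only [Bool.and_eq_true, Bool.or_eq_true, decide_eq_true_eq]
  refine ⟨by omega, by omega, ?_⟩
  by_cases h : a = 0
  · right
    have := h3 h
    rw [le_abs] at this
    omega
  · left; exact h

theorem exists_code {a b : ℤ} (h : Ok a b) : ∃ c < 18, val c = (a, b) := by
  obtain ⟨h1, h2, h3⟩ := h
  rw [abs_le] at h1 h2
  obtain ⟨h1, h1'⟩ := h1
  obtain ⟨h2, h2'⟩ := h2
  have key : ∀ c < 18, val c = (a, b) → ∃ c < 18, val c = (a, b) := fun c hc h => ⟨c, hc, h⟩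
  interval_cases a <;> interval_cases b <;>
    first
    | (exfalso; revert h3; decide)
    | decide

end Pool.Agent.H179R3.HF
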