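import Pool.Agent.H160R2.HF.Hoffman
import Pool.Agent.H179R3.HF.Insert
import Pool.Agent.H179R3.HF.FiveDefs

/-!
# 2-factors into circuits of length five
-/

set_option autoImplicit false

universe u v

namespace Pool.Agent.H179R3.HF
open Finset Pool.Agent.H160R2.HF

section sel

variable {ι : Type u} {M : Type v} [Fintype ι] [Fintype M] [DecidableEq ι] [DecidableEq M]

theorem selection (t h : M → ι) (s : ι → Bool) (hs : ∀ e, s (t e) ≠ s (h e))
    (hdeg : ∀ c, (univ.filter (fun e => t e = c)).card + (univ.filter (fun e => h e = c)).card = 5) :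
    ∃ x : M → ℤ, (∀ e, x e = 0 ∨ x e = 1) ∧
      ∀ c, (∑ e with t e = c, x e) + ∑ e with h e = c, x e = 2 := by
  classical
  let σ : ι → ℤ := fun c => if s c then 1 else -1
  let g0 : M → ℤ := fun e => σ (t e)
  have hσh : ∀ e, σ (h e) = - g0 e := by
    intro e
    have := hs e
    simp only [σ, g0]
    cases h1 : s (t e) <;> cases h2 : s (h e) <;> simp_all
  have hnet0 : ∀ c, net t h g0 c = 5 * σ c := by
    intro c
    unfold net
    have e1 : ∑ e with t e = c, g0 e = ((univ.filter (fun e => t e = c)).card : ℤ) * σ c := by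
      rw [Finset.sum_congr rfl (g := fun _ => σ c), Finset.sum_const, nsmul_eq_mul]
      intro e he
      rw [Finset.mem_filter] at he
      simp only [g0, he.2]
    have e2 : ∑ e with h e = c, g0 e = -((univ.filter (fun e => h e = c)).card : ℤ) * σ c := by
      rw [Finset.sum_congr rfl (g := fun _ => - σ c), Finset.sum_const, nsmul_eq_mul]
      · ring
      intro e he
      rw [Finset.mem_filter] at he
      have := hσh e
      rw [he.2] at this
      linarith
    have := hdeg c
    have h5 : ((univ.filter (fun e => t e = c)).card : ℤ) +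
      ((univ.filter (fun e => h e = c)).card : ℤ) = 5 := by exact_mod_cast this
    rw [e1, e2]
    linear_combination (σ c) * h5
  have hX : ∀ X : Finset ι, 5 * ∑ c ∈ X, σ c =
      ∑ e, ((if t e ∈ X then g0 e else 0) - (if h e ∈ X then g0 e else 0)) := by
    intro X
    rw [← net_sum, Finset.mul_sum]
    exact Finset.sum_congr rfl fun c _ => (hnet0 c).symm
  obtain ⟨g, hg, hgn⟩ := hoffman t h (fun e => if s (t e) then 0 else -1)
    (fun e => if s (t e) then 1 else 0) (fun c => 2 * σ c)
    (fun e => by split_ifs <;> simp) (by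
      have := hX univ
      simp only [Finset.mem_univ, if_true, sub_self, Finset.sum_const_zero] at this
      rw [← Finset.mul_sum]
      linarith) (by
      intro X
      have h1 := hX X
      have h2 : 5 * ff t h (fun e => if s (t e) then (0 : ℤ) else -1)
          (fun e => if s (t e) then 1 else 0) (fun c => 2 * σ c) X =
          ∑ e, (2 * ((if t e ∈ X then g0 e else 0) - (if h e ∈ X then g0 e else 0)) +
            5 * ce t h (fun e => if s (t e) then (0 : ℤ) else -1)
              (fun e => if s (t e) then 1 else 0) X e) := by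
        unfold ff
        rw [Finset.sum_add_distrib, ← Finset.mul_sum univ
          (fun e => ((if t e ∈ X then g0 e else 0) - (if h e ∈ X then g0 e else 0))), ← h1,
          ← Finset.mul_sum, ← Finset.mul_sum]
        ring
      have h3 : 0 ≤ ∑ e, (2 * ((if t e ∈ X then g0 e else 0) - (if h e ∈ X then g0 e else 0)) +
            5 * ce t h (fun e => if s (t e) then (0 : ℤ) else -1)
              (fun e => if s (t e) then 1 else 0) X e) := by
        refine Finset.sum_nonneg fun e _ => ?_
        unfold ce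
        simp only [g0, σ]
        by_cases a : t e ∈ X <;> by_cases b : h e ∈ X <;> cases c : s (t e) <;> simp [a, b, c]
      linarith)
  refine ⟨fun e => if s (t e) then g e else - g e, fun e => ?_, fun c => ?_⟩
  · have := hg e
    by_cases a : s (t e) = true
    · simp only [a, if_true] at this ⊢
      omega
    · simp only [a] at this ⊢
      simp only [Bool.false_eq_true, if_false] at this ⊢
      omega
  · have h1 := hgn c
    unfold net at h1
    have e1 : (∑ e with t e = c, if s (t e) = true then g e else -g e) =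
        σ c * ∑ e with t e = c, g e := by
      rw [Finset.mul_sum]
      refine Finset.sum_congr rfl fun e he => ?_
      rw [Finset.mem_filter] at he
      simp only [σ, he.2]
      split_ifs <;> ring
    have e2 : (∑ e with h e = c, if s (t e) = true then g e else -g e) =
        - σ c * ∑ e with h e = c, g e := by
      rw [Finset.mul_sum]
      refine Finset.sum_congr rfl fun e he => ?_
      rw [Finset.mem_filter] at he
      have := hs e
      simp only [σ]
      rw [he.2] at this
      cases h1 : s (t e) <;> cases h2 : s c <;> simp_all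
    rw [e1, e2]
    have hσ2 : σ c * σ c = 1 := by
      simp only [σ]; split_ifs <;> norm_num
    linear_combination (σ c) * h1 + 2 * hσ2

end sel

theorem circ_aux : ∀ x0 ∈ ({0, 1} : Finset ℤ), ∀ x1 ∈ ({0, 1} : Finset ℤ),
    ∀ x2 ∈ ({0, 1} : Finset ℤ), ∀ x3 ∈ ({0, 1} : Finset ℤ), ∀ x4 ∈ ({0, 1} : Finset ℤ),
    x0 + x1 + x2 + x3 + x4 = 2 → ∃ a ∈ ({-3, -2, -1, 0, 1, 2, 3} : Finset ℤ),
      (-3 ≤ a - (2 - 5 * x0) ∧ a - (2 - 5 * x0) ≤ 3) ∧
      (-3 ≤ a - (2 - 5 * x0) - (2 - 5 * x1) ∧ a - (2 - 5 * x0) - (2 - 5 * x1) ≤ 3) ∧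
      (-3 ≤ a - (2 - 5 * x0) - (2 - 5 * x1) - (2 - 5 * x2) ∧
        a - (2 - 5 * x0) - (2 - 5 * x1) - (2 - 5 * x2) ≤ 3) ∧
      (-3 ≤ a - (2 - 5 * x0) - (2 - 5 * x1) - (2 - 5 * x2) - (2 - 5 * x3) ∧
        a - (2 - 5 * x0) - (2 - 5 * x1) - (2 - 5 * x2) - (2 - 5 * x3) ≤ 3) := by
  decide

/-- flow values on a five-circuit -/
theorem circ (x : Fin 5 → ℤ) (hx : ∀ i, x i = 0 ∨ x i = 1) (h : ∑ i, x i = 2) :
    ∃ w : Fin 5 → ℤ, (∀ i, |w i| ≤ 3) ∧ ∀ i, w i + (2 - 5 * x i) = w (i - 1) := by
  have hm : ∀ i, x i ∈ ({0, 1} : Finset ℤ) := fun i => by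
    rcases hx i with h | h <;> simp [h]
  rw [Fin.sum_univ_five] at h
  obtain ⟨a, ha, h0, h1, h2, h3⟩ := circ_aux _ (hm 0) _ (hm 1) _ (hm 2) _ (hm 3) _ (hm 4) h
  have ha' : |a| ≤ 3 := by
    simp only [Finset.mem_insert, Finset.mem_singleton] at ha
    rcases ha with rfl | rfl | rfl | rfl | rfl | rfl | rfl <;> simp
  refine ⟨![a - (2 - 5 * x 0), a - (2 - 5 * x 0) - (2 - 5 * x 1),
    a - (2 - 5 * x 0) - (2 - 5 * x 1) - (2 - 5 * x 2),
    a - (2 - 5 * x 0) - (2 - 5 * x 1) - (2 - 5 * x 2) - (2 - 5 * x 3), a], ?_, ?_⟩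
  · intro i
    fin_cases i
    · exact abs_le.2 h0
    · exact abs_le.2 h1
    · exact abs_le.2 h2
    · exact abs_le.2 h3
    · exact ha'
  · intro i
    fin_cases i
    · show a - (2 - 5 * x 0) + (2 - 5 * x 0) = a
      ring
    · show a - (2 - 5 * x 0) - (2 - 5 * x 1) + (2 - 5 * x 1) = a - (2 - 5 * x 0)
      ring
    · show a - (2 - 5 * x 0) - (2 - 5 * x 1) - (2 - 5 * x 2) + (2 - 5 * x 2) =
        a - (2 - 5 * x 0) - (2 - 5 * x 1)
      ring
    · show a - (2 - 5 * x 0) - (2 - 5 * x 1) - (2 - 5 * x 2) - (2 - 5 * x 3) + (2 - 5 * x 3) =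
        a - (2 - 5 * x 0) - (2 - 5 * x 1) - (2 - 5 * x 2)
      ring
    · show a + (2 - 5 * x 4) =
        a - (2 - 5 * x 0) - (2 - 5 * x 1) - (2 - 5 * x 2) - (2 - 5 * x 3)
      linarith

section main

variable {ι : Type u} {M : Type v} [Fintype ι] [Fintype M] [DecidableEq ι] [DecidableEq M]

theorem fiveGraph_isFlow (tM hM : M → ι × Fin 5) (φ : (ι × Fin 5) ⊕ M → ℤ) :
    (fiveGraph tM hM).IsFlow φ ↔ ∀ c i,
      φ (Sum.inl (c, i)) + net tM hM (fun e => φ (Sum.inr e)) (c, i) =
        φ (Sum.inl (c, i - 1)) := by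
  unfold OrGraph.IsFlow
  rw [Prod.forall]
  refine forall_congr' fun c => forall_congr' fun i => ?_
  have h1 : (∑ e with (fiveGraph tM hM).t e = (c, i), φ e) =
      φ (Sum.inl (c, i)) + ∑ e with tM e = (c, i), φ (Sum.inr e) := by
    rw [Finset.sum_filter, Fintype.sum_sum_type, Finset.sum_filter]
    congr 1
    rw [Finset.sum_eq_single (c, i)]
    · simp [fiveGraph]
    · intro b _ hb
      simp [fiveGraph, hb]
    · simp
  have h2 : (∑ e with (fiveGraph tM hM).h e = (c, i), φ e) =
      φ (Sum.inl (c, i - 1)) + ∑ e with hM e = (c, i), φ (Sum.inr e) := by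
    rw [Finset.sum_filter, Fintype.sum_sum_type, Finset.sum_filter]
    congr 1
    rw [Finset.sum_eq_single (c, i - 1)]
    · simp [fiveGraph]
    · intro b _ hb
      have : ¬ ((b.1, b.2 + 1) = (c, i)) := by
        intro h
        apply hb
        rw [Prod.mk.injEq] at h
        ext1
        · exact h.1
        · simp only [← h.2, add_sub_cancel_right]
      simp [fiveGraph, this]
    · simp
  rw [h1, h2]
  unfold net
  constructor
  · intro h; linarith
  · intro h; linarith

theorem one_end (tM hM : M → ι × Fin 5) (v : ι × Fin 5)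
    (hv : (univ.filter (fun e => tM e = v)).card + (univ.filter (fun e => hM e = v)).card = 1) :
    (∃ e, tM e = v ∧ (∀ f : M → ℤ, ∑ e with tM e = v, f e = f e) ∧
      ∀ f : M → ℤ, ∑ e with hM e = v, f e = 0) ∨
    (∃ e, hM e = v ∧ (∀ f : M → ℤ, ∑ e with hM e = v, f e = f e) ∧
      ∀ f : M → ℤ, ∑ e with tM e = v, f e = 0) := by
  rcases Nat.eq_zero_or_pos (univ.filter (fun e => tM e = v)).card with h0 | h0
  · right
    have h1 : (univ.filter (fun e => hM e = v)).card = 1 := by omega
    obtain ⟨e, he⟩ := Finset.card_eq_one.1 h1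
    have hev : hM e = v := by
      have : e ∈ univ.filter (fun e => hM e = v) := by rw [he]; simp
      simpa using this
    refine ⟨e, hev, fun f => ?_, fun f => ?_⟩
    · rw [he, Finset.sum_singleton]
    · rw [Finset.card_eq_zero.1 h0, Finset.sum_empty]
  · left
    have h1 : (univ.filter (fun e => tM e = v)).card = 1 := by omega
    have h2 : (univ.filter (fun e => hM e = v)).card = 0 := by omega
    obtain ⟨e, he⟩ := Finset.card_eq_one.1 h1
    have hev : tM e = v := by
      have : e ∈ univ.filter (fun e => tM e = v) := by rw [he]; simp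
      simpa using this
    refine ⟨e, hev, fun f => ?_, fun f => ?_⟩
    · rw [he, Finset.sum_singleton]
    · rw [Finset.card_eq_zero.1 h2, Finset.sum_empty]

/-- sum over a circuit of the sums over the vertices -/
theorem sum_circuit (t : M → ι × Fin 5) (f : M → ℤ) (c : ι) :
    ∑ i, ∑ e with t e = (c, i), f e = ∑ e with (t e).1 = c, f e := by
  simp_rw [Finset.sum_filter]
  rw [Finset.sum_comm]
  refine Finset.sum_congr rfl fun e _ => ?_
  by_cases h : (t e).1 = c
  · rw [if_pos h, Finset.sum_eq_single (t e).2]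
    · rw [if_pos]
      rw [← h]
    · intro b _ hb
      rw [if_neg]
      intro h'
      apply hb
      rw [h']
    · simp
  · rw [if_neg h]
    refine Finset.sum_eq_zero fun i _ => ?_
    rw [if_neg]
    intro h'
    apply h
    rw [h']

theorem sum_circuit_card (t : M → ι × Fin 5) (c : ι) :
    ∑ i, (univ.filter (fun e => t e = (c, i))).card =
      (univ.filter (fun e => (t e).1 = c)).card := by
  have := sum_circuit t (fun _ => 1) c
  simp only [Finset.sum_const, nsmul_eq_mul, mul_one] at this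
  exact_mod_cast this

theorem five_pos (tM hM : M → ι × Fin 5)
    (hone : ∀ v, (univ.filter (fun e => tM e = v)).card +
      (univ.filter (fun e => hM e = v)).card = 1)
    (s : ι → Bool) (hs : ∀ e, s (tM e).1 ≠ s (hM e).1) :
    ∃ φ₂ φ₄ : (ι × Fin 5) ⊕ M → ℤ, (fiveGraph tM hM).IsHalfFlowPair φ₂ φ₄ ∧
      ∀ e, φ₂ e ≠ 0 ↔ ∃ p, e = Sum.inl p := by
  classical
  obtain ⟨x, hx, hx2⟩ := selection (fun e => (tM e).1) (fun e => (hM e).1) s hs (by
    intro c
    rw [← sum_circuit_card, ← sum_circuit_card, ← Finset.sum_add_distrib,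
      Finset.sum_congr rfl (fun i _ => hone (c, i))]
    simp)
  let σ : ι → ℤ := fun c => if s c then 1 else -1
  have hσh : ∀ e, σ (hM e).1 = - σ (tM e).1 := by
    intro e
    have := hs e
    simp only [σ]
    cases h1 : s (tM e).1 <;> cases h2 : s (hM e).1 <;> simp_all
  let X : ι × Fin 5 → ℤ := fun v => (∑ e with tM e = v, x e) + ∑ e with hM e = v, x e
  let y : M → ℤ := fun e => σ (tM e).1 * (2 - 5 * x e)
  have hX : ∀ v, (X v = 0 ∨ X v = 1) ∧ net tM hM y v = σ v.1 * (2 - 5 * X v) := by
    intro v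
    unfold net
    rcases one_end tM hM v (hone v) with ⟨e, he, h1, h2⟩ | ⟨e, he, h1, h2⟩
    · have e1 : X v = x e := by
        simp only [X]; rw [h1 x, h2 x, add_zero]
      rw [e1, h1 y, h2 y]
      refine ⟨hx e, ?_⟩
      simp only [y]
      rw [he]; ring
    · have e1 : X v = x e := by
        simp only [X]; rw [h1 x, h2 x, zero_add]
      rw [e1, h1 y, h2 y]
      refine ⟨hx e, ?_⟩
      simp only [y]
      rw [← he, hσh e]; ring
  have hsum : ∀ c, ∑ i, X (c, i) = 2 := by
    intro c
    simp only [X]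
    rw [Finset.sum_add_distrib, sum_circuit, sum_circuit]
    exact hx2 c
  have hw : ∀ c, ∃ w : Fin 5 → ℤ, (∀ i, |w i| ≤ 3) ∧
      ∀ i, w i + (2 - 5 * X (c, i)) = w (i - 1) :=
    fun c => circ (fun i => X (c, i)) (fun i => (hX (c, i)).1) (hsum c)
  choose w hw3 hwf using hw
  have hσ : ∀ c, σ c = 1 ∨ σ c = -1 := by
    intro c; simp only [σ]; split_ifs <;> simp
  refine ⟨Sum.elim (fun _ => 1) (fun _ => 0),
    Sum.elim (fun p => σ p.1 * w p.1 p.2) y, ?_, ?_⟩
  · rw [pair_iff_ok, fiveGraph_isFlow, fiveGraph_isFlow]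
    refine ⟨fun c i => ?_, fun c i => ?_, ?_⟩
    · simp [net]
    · simp only [Sum.elim_inl, Sum.elim_inr]
      rw [(hX (c, i)).2]
      have := hwf c i
      linear_combination (σ c) * this
    · rintro (⟨c, i⟩ | e)
      · simp only [Sum.elim_inl]
        refine ⟨by simp, ?_, by simp⟩
        have := hw3 c i
        rcases hσ c with h | h
        · rw [h, one_mul]; exact this
        · rw [h, neg_one_mul, abs_neg]; exact this
      · simp only [Sum.elim_inr, y]
        rcases hσ (tM e).1 with h | h <;> rcases hx e with h' | h' <;> rw [h, h'] <;>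
          refine ⟨by simp, by norm_num, fun _ => by norm_num⟩
  · rintro (p | e)
    · simp
    · simp

theorem five_sum (d : Fin 5 → ℤ) (hd : ∀ i, d i = 2 ∨ d i = -2 ∨ d i = 3 ∨ d i = -3)
    (h : ∑ i, d i = 0) (i j : Fin 5) (hi : d i = 2 ∨ d i = -3) : d j = 2 ∨ d j = -3 := by
  rw [Fin.sum_univ_five] at h
  have h0 := hd 0
  have h1 := hd 1
  have h2 := hd 2
  have h3 := hd 3
  have h4 := hd 4
  fin_cases i <;> fin_cases j <;> simp only [Fin.zero_eta, Fin.mk_one, Fin.reduceFinMk] at * <;>
    omega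

theorem five_neg (tM hM : M → ι × Fin 5)
    (hone : ∀ v, (univ.filter (fun e => tM e = v)).card +
      (univ.filter (fun e => hM e = v)).card = 1)
    (φ₂ φ₄ : (ι × Fin 5) ⊕ M → ℤ) (hp : (fiveGraph tM hM).IsHalfFlowPair φ₂ φ₄)
    (h0 : ∀ e : M, φ₂ (Sum.inr e) = 0) :
    ∃ s : ι → Bool, ∀ e, s (tM e).1 ≠ s (hM e).1 := by
  classical
  rw [pair_iff_ok] at hp
  obtain ⟨-, h4, hok⟩ := hp
  rw [fiveGraph_isFlow] at h4
  let D : ι × Fin 5 → ℤ := net tM hM (fun e => φ₄ (Sum.inr e))
  have hval : ∀ e : M, φ₄ (Sum.inr e) = 2 ∨ φ₄ (Sum.inr e) = -2 ∨ φ₄ (Sum.inr e) = 3 ∨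
      φ₄ (Sum.inr e) = -3 := by
    intro e
    obtain ⟨-, a, b⟩ := hok (Sum.inr e)
    have b := b (h0 e)
    rw [abs_le] at a
    rw [le_abs] at b
    omega
  have hD : ∀ v, D v = 2 ∨ D v = -2 ∨ D v = 3 ∨ D v = -3 := by
    intro v
    simp only [D]
    unfold net
    rcases one_end tM hM v (hone v) with ⟨e, he, h1, h2⟩ | ⟨e, he, h1, h2⟩
    · rw [h1, h2]; have := hval e; omega
    · rw [h1, h2]; have := hval e; omega
  have hDs : ∀ c, ∑ i, D (c, i) = 0 := by
    intro c
    have e0 := h4 c 0
    have e1 := h4 c 1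
    have e2 := h4 c 2
    have e3 := h4 c 3
    have e4 := h4 c 4
    have f0 : (0 : Fin 5) - 1 = 4 := by decide
    have f1 : (1 : Fin 5) - 1 = 0 := by decide
    have f2 : (2 : Fin 5) - 1 = 1 := by decide
    have f3 : (3 : Fin 5) - 1 = 2 := by decide
    have f4 : (4 : Fin 5) - 1 = 3 := by decide
    rw [f0] at e0
    rw [f1] at e1
    rw [f2] at e2
    rw [f3] at e3
    rw [f4] at e4
    rw [Fin.sum_univ_five]
    simp only [D]
    linarith
  have hDt : ∀ e, D (tM e) = φ₄ (Sum.inr e) := by
    intro e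
    simp only [D]
    unfold net
    rcases one_end tM hM (tM e) (hone (tM e)) with ⟨e', he, h1, h2⟩ | ⟨e', he, h1, h2⟩
    · rw [h1, h2]
      have : (e' : M) = e := by
        have := h1 (fun a => if a = e then 1 else 0)
        by_contra hne
        simp only [hne, if_false] at this
        rw [Finset.sum_eq_zero_iff_of_nonneg (fun a _ => by split_ifs <;> simp)] at this
        have := this e (by simp)
        simp at this
      rw [this, sub_zero]
    · exfalso
      have := h2 (fun a => if a = e then 1 else 0)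
      rw [Finset.sum_eq_zero_iff_of_nonneg (fun a _ => by split_ifs <;> simp)] at this
      have := this e (by simp)
      simp at this
  have hDh : ∀ e, D (hM e) = - φ₄ (Sum.inr e) := by
    intro e
    simp only [D]
    unfold net
    rcases one_end tM hM (hM e) (hone (hM e)) with ⟨e', he, h1, h2⟩ | ⟨e', he, h1, h2⟩
    · exfalso
      have := h2 (fun a => if a = e then 1 else 0)
      rw [Finset.sum_eq_zero_iff_of_nonneg (fun a _ => by split_ifs <;> simp)] at this
      have := this e (by simp)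
      simp at this
    · rw [h1, h2]
      have : (e' : M) = e := by
        have := h1 (fun a => if a = e then 1 else 0)
        by_contra hne
        simp only [hne, if_false] at this
        rw [Finset.sum_eq_zero_iff_of_nonneg (fun a _ => by split_ifs <;> simp)] at this
        have := this e (by simp)
        simp at this
      rw [this, zero_sub]
  refine ⟨fun c => decide (D (c, 0) = 2 ∨ D (c, 0) = -3), fun e heq => ?_⟩
  have key : ∀ v : ι × Fin 5, (D (v.1, 0) = 2 ∨ D (v.1, 0) = -3) ↔ (D v = 2 ∨ D v = -3) := by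
    rintro ⟨c, i⟩
    exact ⟨fun h => five_sum (fun i => D (c, i)) (fun i => hD _) (hDs c) 0 i h,
      fun h => five_sum (fun i => D (c, i)) (fun i => hD _) (hDs c) i 0 h⟩
  rw [decide_eq_decide, key, key, hDt, hDh] at heq
  have := hval e
  omega

end main

end Pool.Agent.H179R3.HF
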