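import Pool.Agent.H160R2.HF.Final

/-!
# `1/2`-flow-pairs: even subgraphs whose complement is almost even (general graphs)
-/

namespace Pool.Agent.H179R3.HF
open Finset Pool.Agent.H160R2.HF

variable {V E : Type*} [Fintype V] [Fintype E] [DecidableEq V] [DecidableEq E] (G : OrGraph V E)

/-- The key sufficient condition: `F` is an even edge set, `κ` is a `{-1,0,1}`-valued function,
nonzero off `F`, whose net outflow over every vertex set is at most one in absolute value. -/
theorem exists_pair_gen (hb : ∀ X : Finset V, (G.cut X).card ≠ 1) (F : Finset E)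
    (hF : ∀ v, Even (G.deg F v)) (κ : E → ℤ) (h1 : ∀ e, κ e = 1 ∨ κ e = -1 ∨ κ e = 0)
    (h2 : ∀ e, e ∉ F → κ e ≠ 0) (hs : ∀ X : Finset V, |∑ v ∈ X, net G.t G.h κ v| ≤ 1)
    (h3 : ∀ X : Finset V, (G.cut X).card = 3 → (G.cut X ∩ F).Nonempty) :
    ∃ φ₂ φ₄ : E → ℤ, G.IsHalfFlowPair φ₂ φ₄ ∧ ∀ e, φ₂ e ≠ 0 ↔ e ∈ F := by
  classical
  obtain ⟨φ₂, h21, h22⟩ := eulerian G.t G.h F (fun v => hF v)
  obtain ⟨φ₄, h41, h42⟩ := hoffman G.t G.h
    (fun e => if e ∈ F then -3 else if κ e = 1 then 2 else -3)
    (fun e => if e ∈ F then 3 else if κ e = 1 then 3 else -2)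
    (fun _ => 0) (fun e => by split_ifs <;> simp) (by simp) (by
      intro X
      let s : E → ℤ := fun e => (if G.h e ∈ X then κ e else 0) - (if G.t e ∈ X then κ e else 0)
      let N1 := univ.filter (fun e => e ∈ G.cut X ∧ e ∉ F ∧ s e = 1)
      let N2 := univ.filter (fun e => e ∈ G.cut X ∧ e ∉ F ∧ s e = -1)
      let N3 := univ.filter (fun e => e ∈ G.cut X ∧ e ∈ F ∧ s e = 1)
      let N4 := univ.filter (fun e => e ∈ G.cut X ∧ e ∈ F ∧ s e = -1)
      let N5 := univ.filter (fun e => e ∈ G.cut X ∧ e ∈ F ∧ s e = 0)
      have c1 : (N1.card : ℤ) = ∑ e, if (e ∈ G.cut X ∧ e ∉ F ∧ s e = 1) then 1 else 0 := by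
        simp only [Finset.sum_boole, N1]
      have c2 : (N2.card : ℤ) = ∑ e, if (e ∈ G.cut X ∧ e ∉ F ∧ s e = -1) then 1 else 0 := by
        simp only [Finset.sum_boole, N2]
      have c3 : (N3.card : ℤ) = ∑ e, if (e ∈ G.cut X ∧ e ∈ F ∧ s e = 1) then 1 else 0 := by
        simp only [Finset.sum_boole, N3]
      have c4 : (N4.card : ℤ) = ∑ e, if (e ∈ G.cut X ∧ e ∈ F ∧ s e = -1) then 1 else 0 := by
        simp only [Finset.sum_boole, N4]
      have c5 : (N5.card : ℤ) = ∑ e, if (e ∈ G.cut X ∧ e ∈ F ∧ s e = 0) then 1 else 0 := by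
        simp only [Finset.sum_boole, N5]
      have c6 : ((G.cut X).card : ℤ) = ∑ e, if e ∈ G.cut X then 1 else 0 := by
        simp
      have c7 : ((G.cut X ∩ F).card : ℤ) = ∑ e, if e ∈ G.cut X ∩ F then 1 else 0 := by
        simp only [Finset.sum_boole]
        congr 2
        ext e; simp
      have hff : ff G.t G.h (fun e => if e ∈ F then -3 else if κ e = 1 then 2 else -3)
          (fun e => if e ∈ F then 3 else if κ e = 1 then 3 else -2) (fun _ => 0) X =
          3 * N1.card - 2 * N2.card + 3 * N3.card + 3 * N4.card + 3 * N5.card := by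
        unfold ff
        rw [c1, c2, c3, c4, c5, Finset.mul_sum, Finset.mul_sum, Finset.mul_sum, Finset.mul_sum,
          Finset.mul_sum, ← Finset.sum_sub_distrib, ← Finset.sum_add_distrib,
          ← Finset.sum_add_distrib, ← Finset.sum_add_distrib, Finset.sum_const_zero, zero_add]
        refine Finset.sum_congr rfl fun e _ => ?_
        unfold ce
        simp only [s, OrGraph.cut, Finset.mem_filter, Finset.mem_univ, true_and]
        by_cases he : e ∈ F
        · rcases h1 e with h | h | h <;>
          by_cases a : G.t e ∈ X <;> by_cases b : G.h e ∈ X <;> simp [a, b, he, h]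
        · have h0 := h2 e he
          rcases h1 e with h | h | h
          · by_cases a : G.t e ∈ X <;> by_cases b : G.h e ∈ X <;> simp [a, b, he, h]
          · by_cases a : G.t e ∈ X <;> by_cases b : G.h e ∈ X <;> simp [a, b, he, h]
          · exact absurd h h0
      have hnet : ∑ v ∈ X, net G.t G.h κ v = (N2.card : ℤ) + N4.card - N1.card - N3.card := by
        rw [net_sum, c1, c2, c3, c4, ← Finset.sum_add_distrib, ← Finset.sum_sub_distrib,
          ← Finset.sum_sub_distrib]
        refine Finset.sum_congr rfl fun e _ => ?_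
        simp only [s, OrGraph.cut, Finset.mem_filter, Finset.mem_univ, true_and]
        by_cases he : e ∈ F
        · rcases h1 e with h | h | h <;>
          by_cases a : G.t e ∈ X <;> by_cases b : G.h e ∈ X <;> simp [a, b, he, h]
        · have h0 := h2 e he
          rcases h1 e with h | h | h
          · by_cases a : G.t e ∈ X <;> by_cases b : G.h e ∈ X <;> simp [a, b, he, h]
          · by_cases a : G.t e ∈ X <;> by_cases b : G.h e ∈ X <;> simp [a, b, he, h]
          · exact absurd h h0
      have hcut : ((G.cut X).card : ℤ) = N1.card + N2.card + N3.card + N4.card + N5.card := by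
        rw [c6, c1, c2, c3, c4, c5, ← Finset.sum_add_distrib, ← Finset.sum_add_distrib,
          ← Finset.sum_add_distrib, ← Finset.sum_add_distrib]
        refine Finset.sum_congr rfl fun e _ => ?_
        simp only [s, OrGraph.cut, Finset.mem_filter, Finset.mem_univ, true_and]
        by_cases he : e ∈ F
        · rcases h1 e with h | h | h <;>
          by_cases a : G.t e ∈ X <;> by_cases b : G.h e ∈ X <;> simp [a, b, he, h]
        · have h0 := h2 e he
          rcases h1 e with h | h | h
          · by_cases a : G.t e ∈ X <;> by_cases b : G.h e ∈ X <;> simp [a, b, he, h]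
          · by_cases a : G.t e ∈ X <;> by_cases b : G.h e ∈ X <;> simp [a, b, he, h]
          · exact absurd h h0
      have hcutF : ((G.cut X ∩ F).card : ℤ) = N3.card + N4.card + N5.card := by
        rw [c7, c3, c4, c5, ← Finset.sum_add_distrib, ← Finset.sum_add_distrib]
        refine Finset.sum_congr rfl fun e _ => ?_
        simp only [s, OrGraph.cut, Finset.mem_filter, Finset.mem_univ, true_and, Finset.mem_inter]
        by_cases he : e ∈ F
        · rcases h1 e with h | h | h <;>
          by_cases a : G.t e ∈ X <;> by_cases b : G.h e ∈ X <;> simp [a, b, he, h]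
        · simp [he]
      have hhs := G.handshake F X
      have heven : Even (∑ v ∈ X, G.deg F v) := Finset.even_sum _ (fun v _ => hF v)
      obtain ⟨k, hk⟩ := heven
      have hne1 := hb X
      have hne3 : (G.cut X ∩ F).card = 0 → (G.cut X).card ≠ 3 := by
        intro h0 h3'
        have := h3 X h3'
        rw [Finset.card_eq_zero] at h0
        rw [h0] at this
        exact Finset.not_nonempty_empty this
      have hs' := hs X
      rw [hnet, abs_le] at hs'
      rw [hff]
      by_cases hf0 : (G.cut X ∩ F).card = 0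
      · have := hne3 hf0
        omega
      · omega)
  refine ⟨φ₂, φ₄, ⟨⟨fun e => ?_, G.isFlow_of_net h22⟩, ⟨fun e => ?_, G.isFlow_of_net h42⟩,
    fun e he => ?_⟩, fun e => ?_⟩
  · by_cases he : e ∈ F
    · rcases (h21 e).1 he with h | h <;> rw [h] <;> simp
    · rw [(h21 e).2 he]; simp
  · have h1 := h41 e
    rw [abs_le]
    push_cast
    split_ifs at h1 <;> constructor <;> omega
  · have he' : e ∉ F := by
      intro heF
      rcases (h21 e).1 heF with h | h <;> rw [h] at he <;> simp at he
    have h1 := h41 e
    rw [if_neg he', if_neg he'] at h1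
    rw [le_abs]
    split_ifs at h1
    · left; exact h1.1
    · right; omega
  · constructor
    · intro h
      by_contra he
      exact h ((h21 e).2 he)
    · intro he
      rcases (h21 e).1 he with h | h <;> rw [h] <;> simp

end Pool.Agent.H179R3.HF
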