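import Pool.Agent.H179R3.HF.Nearly

/-!
# `1/2`-flow-pairs of graphs with a spanning closed trail of `G - v`
-/

namespace Pool.Agent.H179R3.HF
open Finset Pool.Agent.H160R2.HF

variable {V E : Type*} [Fintype V] [Fintype E] [DecidableEq V] [DecidableEq E] (G : OrGraph V E)

/-- at most one zero -/
theorem nearlyK' (hB : G.Bridgeless) {f₀ : E → K4} (hf₀ : IsZ G f₀)
    (h0 : ∀ g g', f₀ g = 0 → f₀ g' = 0 → g = g') :
    ∃ φ₂ φ₄ : E → ℤ, G.IsHalfFlowPair φ₂ φ₄ := by
  by_cases hE : Nonempty E
  · obtain ⟨e⟩ := hE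
    by_cases hz : ∃ g, f₀ g = 0
    · obtain ⟨g, hg⟩ := hz
      exact nearlyK G hB hf₀ (e₀ := g) fun g' hg' => h0 g' g hg' hg
    · exact nearlyK G hB hf₀ (e₀ := e) fun g' hg' => absurd ⟨g', hg'⟩ hz
  · refine ⟨fun _ => 0, fun _ => 0, ⟨fun e => absurd ⟨e⟩ hE, fun v => by simp⟩,
      ⟨fun e => absurd ⟨e⟩ hE, fun v => by simp⟩, fun e => absurd ⟨e⟩ hE⟩

theorem nearly' (hB : G.Bridgeless) {ψ : E → ℤ} (hψ : G.IsKFlow 4 ψ)
    (h0 : ∀ g g', ψ g = 0 → ψ g' = 0 → g = g') :
    ∃ φ₂ φ₄ : E → ℤ, G.IsHalfFlowPair φ₂ φ₄ := by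
  obtain ⟨f₀, hf₀, hz₀⟩ := exists_K4 G hψ
  exact nearlyK' G hB hf₀ fun g g' hg hg' => h0 g g' ((hz₀ g).1 hg) ((hz₀ g').1 hg')

/-- boundary mod 2 -/
def bd (j : E → ZMod 2) (x : V) : ZMod 2 :=
  (∑ g with G.t g = x, j g) + ∑ g with G.h g = x, j g

theorem bd_add (j k : E → ZMod 2) (x : V) :
    bd G (fun g => j g + k g) x = bd G j x + bd G k x := by
  unfold bd
  rw [Finset.sum_add_distrib, Finset.sum_add_distrib]
  ring

theorem bd_sum {ι : Type*} (s : Finset ι) (j : ι → E → ZMod 2) (x : V) :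
    bd G (fun g => ∑ i ∈ s, j i g) x = ∑ i ∈ s, bd G (j i) x := by
  unfold bd
  rw [Finset.sum_add_distrib, Finset.sum_comm, Finset.sum_comm (s := univ.filter _)]

theorem bd_mul (c : ZMod 2) (j : E → ZMod 2) (x : V) :
    bd G (fun g => c * j g) x = c * bd G j x := by
  unfold bd
  rw [← Finset.mul_sum, ← Finset.mul_sum]
  ring

theorem bd_single (g₀ : E) (x : V) : bd G (fun g => if g = g₀ then 1 else 0) x =
    (if G.t g₀ = x then 1 else 0) + (if G.h g₀ = x then 1 else 0) := by
  unfold bd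
  rw [Finset.sum_filter, Finset.sum_filter]
  congr 1
  · rw [Finset.sum_eq_single g₀]
    · simp
    · intro b _ hb; simp [hb]
    · simp
  · rw [Finset.sum_eq_single g₀]
    · simp
    · intro b _ hb; simp [hb]
    · simp

theorem z2_add_self (x : ZMod 2) : x + x = 0 := CharTwo.add_self_eq_zero x

theorem path_join (C : Finset E) {x y : V} (h : (G.sub C).Reachable x y) :
    ∃ j : E → ZMod 2, (∀ g, g ∉ C → j g = 0) ∧
      ∀ w, bd G j w = (if x = w then 1 else 0) + (if y = w then 1 else 0) := by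
  obtain ⟨p⟩ := h
  induction p with
  | nil =>
    refine ⟨fun _ => 0, fun _ _ => rfl, fun w => ?_⟩
    rw [z2_add_self]
    simp [bd]
  | @cons u v w hadj _ ih =>
    obtain ⟨j, hj, hbd⟩ := ih
    rw [OrGraph.sub, SimpleGraph.fromRel_adj] at hadj
    obtain ⟨g₀, hg₀, hends⟩ : ∃ g ∈ C, (G.t g = u ∧ G.h g = v) ∨ (G.t g = v ∧ G.h g = u) := by
      rcases hadj.2 with ⟨g, hg, h⟩ | ⟨g, hg, h⟩
      · exact ⟨g, hg, Or.inl h⟩
      · exact ⟨g, hg, Or.inr h⟩
    refine ⟨fun g => j g + (if g = g₀ then 1 else 0), fun g hg => ?_, fun z => ?_⟩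
    · show j g + (if g = g₀ then 1 else 0) = 0
      rw [hj g hg, zero_add, if_neg]
      rintro rfl
      exact hg hg₀
    · rw [bd_add, hbd, bd_single]
      rcases hends with ⟨h1, h2⟩ | ⟨h1, h2⟩ <;> rw [h1, h2] <;> split_ifs <;> decide

theorem exists_Tjoin (C : Finset E) (v r : V)
    (hconn : ∀ x, x ≠ v → (G.sub C).Reachable x r) (T : V → ZMod 2) (hT0 : T v = 0)
    (hT : ∑ w, T w = 0) :
    ∃ j : E → ZMod 2, (∀ g, g ∉ C → j g = 0) ∧ ∀ w, bd G j w = T w := by
  have h1 : ∀ w, ∃ j : E → ZMod 2, (∀ g, g ∉ C → j g = 0) ∧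
      ∀ x, T w * bd G j x = T w * ((if w = x then 1 else 0) + (if r = x then 1 else 0)) := by
    intro w
    by_cases hw : w = v
    · refine ⟨fun _ => 0, fun _ _ => rfl, fun x => ?_⟩
      rw [hw, hT0, zero_mul, zero_mul]
    · obtain ⟨j, hj, hb⟩ := path_join G C (hconn w hw)
      exact ⟨j, hj, fun x => by rw [hb]⟩
  choose j hj hb using h1
  refine ⟨fun g => ∑ w, T w * j w g, fun g hg => ?_, fun x => ?_⟩
  · exact Finset.sum_eq_zero fun w _ => by rw [hj w g hg, mul_zero]
  · rw [bd_sum]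
    have h2 : ∀ w, bd G (fun g => T w * j w g) x =
        (if w = x then T w else 0) + T w * (if r = x then 1 else 0) := by
      intro w
      rw [bd_mul, hb, mul_add]
      congr 1
      split_ifs <;> simp
    rw [Finset.sum_congr rfl fun w _ => h2 w, Finset.sum_add_distrib, ← Finset.sum_mul, hT,
      zero_mul, add_zero, Finset.sum_ite_eq' univ x T]
    simp

theorem bd_indicator (S : Finset E) (x : V) :
    bd G (fun g => if g ∈ S then 1 else 0) x = (G.deg S x : ZMod 2) := by
  unfold bd OrGraph.deg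
  push_cast
  congr 1
  · rw [Finset.sum_ite_mem, Finset.sum_const]
    simp only [nsmul_eq_mul, mul_one]
    congr 2
    ext g
    simp [and_comm]
  · rw [Finset.sum_ite_mem, Finset.sum_const]
    simp only [nsmul_eq_mul, mul_one]
    congr 2
    ext g
    simp [and_comm]

theorem sum_bd (j : E → ZMod 2) : ∑ x, bd G j x = 0 := by
  unfold bd
  rw [Finset.sum_add_distrib, Finset.sum_fiberwise, Finset.sum_fiberwise, z2_add_self]

theorem cover (C S : Finset E) (v r : V) (hC : ∀ w, Even (G.deg C w))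
    (hconn : ∀ x, x ≠ v → (G.sub C).Reachable x r)
    (hS : bd G (fun g => if g ∈ S then 1 else 0) v = 0) :
    ∃ f : E → K4, IsZ G f ∧ ∀ g, f g = 0 → g ∉ C ∧ g ∉ S := by
  obtain ⟨j, hj, hb⟩ := exists_Tjoin G C v r hconn
    (fun x => bd G (fun g => if g ∈ S then 1 else 0) x) hS (sum_bd G _)
  refine ⟨fun g => ((if g ∈ C then 1 else 0), (if g ∈ S then 1 else 0) + j g), ?_, ?_⟩
  · intro x
    refine Prod.ext ?_ ?_
    · rw [Prod.fst_add, Prod.fst_sum, Prod.fst_sum]
      have h1 := bd_indicator G C x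
      have h2 : (G.deg C x : ZMod 2) = 0 := (ZMod.natCast_eq_zero_iff_even).2 (hC x)
      rw [h2] at h1
      exact h1
    · rw [Prod.snd_add, Prod.snd_sum, Prod.snd_sum]
      have h1 := bd_add G (fun g => if g ∈ S then 1 else 0) j x
      rw [hb x, z2_add_self] at h1
      exact h1
  · intro g hg
    have h1 : (if g ∈ C then (1 : ZMod 2) else 0) = 0 := congrArg Prod.fst hg
    have h2 : (if g ∈ S then (1 : ZMod 2) else 0) + j g = 0 := congrArg Prod.snd hg
    have hgC : g ∉ C := by
      intro h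
      rw [if_pos h] at h1
      exact one_ne_zero h1
    refine ⟨hgC, fun h => ?_⟩
    rw [if_pos h, hj g hgC, add_zero] at h2
    exact one_ne_zero h2

/-- Graphs `G` such that `G - v` has a spanning closed trail, for some vertex `v`. -/
theorem minus_vertex (hB : G.Bridgeless) (v : V) (C : Finset E) (hC : ∀ w, Even (G.deg C w))
    (hconn : ∀ x y, x ≠ v → y ≠ v → (G.sub C).Reachable x y) :
    ∃ φ₂ φ₄ : E → ℤ, G.IsHalfFlowPair φ₂ φ₄ := by
  classical
  by_cases hr : ∃ r, r ≠ v
  · obtain ⟨r, hr⟩ := hr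
    by_cases hpar : bd G (fun g => if g ∈ Cᶜ then 1 else 0) v = 0
    · obtain ⟨f, hf, hz⟩ := cover G C Cᶜ v r hC (fun x hx => hconn x r hx hr) hpar
      refine nearlyK' G hB hf fun g g' hg _ => ?_
      have := hz g hg
      simp at this
    · obtain ⟨g₀, hg₀, hends⟩ : ∃ g ∈ Cᶜ, ¬ (G.t g = v ↔ G.h g = v) := by
        by_contra hcon
        push Not at hcon
        apply hpar
        unfold bd
        rw [Finset.sum_filter, Finset.sum_filter, ← Finset.sum_add_distrib]
        refine Finset.sum_eq_zero fun g _ => ?_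
        by_cases hg : g ∈ Cᶜ
        · have h1 := hcon g hg
          by_cases h2 : G.t g = v
          · rw [if_pos h2, if_pos (h1.1 h2)]; exact z2_add_self _
          · rw [if_neg h2, if_neg (fun h => h2 (h1.2 h)), add_zero]
        · rw [if_neg hg]; simp
      have hpar' : bd G (fun g => if g ∈ Cᶜ.erase g₀ then 1 else 0) v = 0 := by
        have h1 := bd_add G (fun g => if g ∈ Cᶜ then 1 else 0) (fun g => if g = g₀ then 1 else 0) v
        rw [bd_single] at h1
        have h2 : (fun g => if g ∈ Cᶜ.erase g₀ then (1 : ZMod 2) else 0) =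
            fun g => (if g ∈ Cᶜ then 1 else 0) + (if g = g₀ then 1 else 0) := by
          funext g
          by_cases hg : g = g₀
          · subst hg
            rw [if_neg (by simp), if_pos hg₀, if_pos rfl]
            decide
          · rw [if_neg hg, add_zero]
            simp [hg]
        rw [h2, h1]
        have h3 : bd G (fun g => if g ∈ Cᶜ then 1 else 0) v = 1 := by
          have : ∀ y : ZMod 2, y ≠ 0 → y = 1 := by decide
          exact this _ hpar
        rw [h3]
        by_cases a : G.t g₀ = v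
        · have b : G.h g₀ ≠ v := fun b => hends ⟨fun _ => b, fun _ => a⟩
          rw [if_pos a, if_neg b]
          decide
        · have b : G.h g₀ = v := by
            by_contra b
            exact hends ⟨fun h => absurd h a, fun h => absurd h b⟩
          rw [if_neg a, if_pos b]
          decide
      obtain ⟨f, hf, hz⟩ := cover G C (Cᶜ.erase g₀) v r hC (fun x hx => hconn x r hx hr) hpar'
      have key : ∀ g, f g = 0 → g = g₀ := by
        intro g hg
        have := hz g hg
        by_contra hne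
        exact this.2 (Finset.mem_erase.2 ⟨hne, Finset.mem_compl.2 this.1⟩)
      exact nearlyK' G hB hf fun g g' hg hg' => (key g hg).trans (key g' hg').symm
  · have hall : ∀ r : V, r = v := fun r => by
      by_contra h
      exact hr ⟨r, h⟩
    refine nearlyK' G hB (f₀ := fun _ => ((1, 0) : K4)) ?_ (fun g g' hg _ => ?_)
    · intro w
      have h1 : univ.filter (fun g => G.t g = w) = (univ : Finset E) :=
        Finset.filter_true_of_mem fun g _ => (hall _).trans (hall w).symm
      have h2 : univ.filter (fun g => G.h g = w) = (univ : Finset E) :=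
        Finset.filter_true_of_mem fun g _ => (hall _).trans (hall w).symm
      rw [h1, h2]
      exact k4_add_self _
    · exact absurd hg (by decide)

end Pool.Agent.H179R3.HF
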