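import Pool.Agent.H179R3.HF.Gen
import Pool.Agent.H179R3.HF.Chain

/-!
# `1/2`-flow-pairs of graphs with a 4-flow with at most one zero
-/

namespace Pool.Agent.H179R3.HF
open Finset Pool.Agent.H160R2.HF

variable {V E : Type*} [Fintype V] [Fintype E] [DecidableEq V] [DecidableEq E] (G : OrGraph V E)

theorem sum_eq_card (x : E → ZMod 2) (s : Finset E) :
    ∑ g ∈ s, x g = ((s.filter (fun g => x g ≠ 0)).card : ZMod 2) := by
  rw [Finset.card_filter]
  push_cast
  refine Finset.sum_congr rfl fun g _ => ?_
  have : ∀ y : ZMod 2, y = if y ≠ 0 then 1 else 0 := by decide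
  exact this (x g)

theorem even_deg {f : E → K4} (hf : IsZ G f) (π : K4 →+ ZMod 2) (v : V) :
    Even (G.deg (univ.filter (fun g => π (f g) ≠ 0)) v) := by
  have h1 := congrArg π (hf v)
  rw [map_add, map_sum, map_sum, map_zero, sum_eq_card, sum_eq_card] at h1
  have h2 : ∀ k : E → V, (univ.filter (fun g => k g = v)).filter (fun g => π (f g) ≠ 0) =
      (univ.filter (fun g => π (f g) ≠ 0)).filter (fun g => k g = v) := by
    intro k
    rw [Finset.filter_filter, Finset.filter_filter]
    refine Finset.filter_congr fun g _ => ?_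
    exact and_comm
  rw [h2, h2] at h1
  unfold OrGraph.deg
  rw [← ZMod.natCast_eq_zero_iff_even]
  push_cast
  exact h1

/-- from a 4-flow to a `ℤ₂ × ℤ₂`-flow with the same zeros -/
theorem exists_K4 {ψ : E → ℤ} (hψ : G.IsKFlow 4 ψ) :
    ∃ f : E → K4, IsZ G f ∧ ∀ g, f g = 0 ↔ ψ g = 0 := by
  classical
  obtain ⟨hb, hfl⟩ := hψ
  let A : Finset E := univ.filter (fun g => ((ψ g : ℤ) : ZMod 2) ≠ 0)
  have hA : ∀ v, Even ((A.filter (fun e => G.t e = v)).card +
      (A.filter (fun e => G.h e = v)).card) := by
    intro v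
    have h1 := congrArg (fun z : ℤ => (z : ZMod 2)) (hfl v)
    simp only [Int.cast_sum] at h1
    rw [sum_eq_card, sum_eq_card] at h1
    have h2 : ∀ k : E → V, (univ.filter (fun g => k g = v)).filter
        (fun g => ((ψ g : ℤ) : ZMod 2) ≠ 0) = A.filter (fun g => k g = v) := by
      intro k
      rw [Finset.filter_filter, Finset.filter_filter]
      refine Finset.filter_congr fun g _ => ?_
      exact and_comm
    rw [h2, h2] at h1
    rw [← ZMod.natCast_eq_zero_iff_even]
    push_cast
    rw [h1]
    exact CharTwo.add_self_eq_zero _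
  obtain ⟨κ, hκ1, hκ2⟩ := eulerian G.t G.h A hA
  have hpar : ∀ g, (2 : ℤ) ∣ ψ g - κ g := by
    intro g
    by_cases hg : g ∈ A
    · have h1 : ((ψ g : ℤ) : ZMod 2) ≠ 0 := (Finset.mem_filter.1 hg).2
      have h2 : ¬ (2 : ℤ) ∣ ψ g := fun h => h1 ((ZMod.intCast_zmod_eq_zero_iff_dvd _ 2).2 h)
      rcases (hκ1 g).1 hg with h | h <;> rw [h] <;> omega
    · have h1 : ((ψ g : ℤ) : ZMod 2) = 0 := by
        by_contra h
        exact hg (Finset.mem_filter.2 ⟨mem_univ _, h⟩)
      have h2 : (2 : ℤ) ∣ ψ g := (ZMod.intCast_zmod_eq_zero_iff_dvd _ 2).1 h1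
      rw [(hκ1 g).2 hg]
      omega
  choose θ hθ using hpar
  refine ⟨fun g => (((ψ g : ℤ) : ZMod 2), ((θ g : ℤ) : ZMod 2)), ?_, ?_⟩
  · intro v
    have h1 := hfl v
    have h2 := hκ2 v
    unfold net at h2
    have h3 : ∑ g with G.t g = v, θ g = ∑ g with G.h g = v, θ g := by
      have h4 : ∀ s : Finset E, 2 * ∑ g ∈ s, θ g = ∑ g ∈ s, ψ g - ∑ g ∈ s, κ g := by
        intro s
        rw [Finset.mul_sum, ← Finset.sum_sub_distrib]
        exact Finset.sum_congr rfl fun g _ => (hθ g).symm
      have h5 := h4 (univ.filter (fun g => G.t g = v))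
      have h6 := h4 (univ.filter (fun g => G.h g = v))
      linarith
    have h1' := congrArg (fun z : ℤ => (z : ZMod 2)) h1
    have h3' := congrArg (fun z : ℤ => (z : ZMod 2)) h3
    simp only [Int.cast_sum] at h1' h3'
    refine Prod.ext ?_ ?_
    · rw [Prod.fst_add, Prod.fst_sum, Prod.fst_sum]
      simp only
      rw [h1']
      exact CharTwo.add_self_eq_zero _
    · rw [Prod.snd_add, Prod.snd_sum, Prod.snd_sum]
      simp only
      rw [h3']
      exact CharTwo.add_self_eq_zero _
  · intro g
    have hbg := hb g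
    push_cast at hbg
    rw [abs_le] at hbg
    have hθg := hθ g
    constructor
    · intro h
      have h1 : ((ψ g : ℤ) : ZMod 2) = 0 := congrArg Prod.fst h
      have h2 : ((θ g : ℤ) : ZMod 2) = 0 := congrArg Prod.snd h
      have h3 := (ZMod.intCast_zmod_eq_zero_iff_dvd _ 2).1 h2
      have hg : g ∉ A := fun hg => (Finset.mem_filter.1 hg).2 h1
      rw [(hκ1 g).2 hg] at hθg
      push_cast at h3
      omega
    · intro h
      have h1 : ((ψ g : ℤ) : ZMod 2) = 0 := by rw [h]; simp
      have hg : g ∉ A := fun hg => (Finset.mem_filter.1 hg).2 h1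
      rw [(hκ1 g).2 hg] at hθg
      have h2 : θ g = 0 := by omega
      show (((ψ g : ℤ) : ZMod 2), ((θ g : ℤ) : ZMod 2)) = 0
      rw [h, h2]
      simp

theorem compl_cut (X : Finset V) : G.cut Xᶜ = G.cut X := by
  ext e; simp [OrGraph.cut, not_iff_not]

/-- the sum of the two coordinates -/
def piS : K4 →+ ZMod 2 where
  toFun := fun x => x.1 + x.2
  map_zero' := by decide
  map_add' := by decide

/-- the second coordinate -/
def piB : K4 →+ ZMod 2 where
  toFun := fun x => x.2
  map_zero' := by decide
  map_add' := by decide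

theorem piS_ne : ∀ x : K4, piS x ≠ 0 ↔ x ≠ 0 ∧ x ≠ (1, 1) := by
  intro x
  show x.1 + x.2 ≠ 0 ↔ _
  revert x
  decide

theorem three_top {f : E → K4} (hf : IsZ G f) {X : Finset V} (h3 : (G.cut X).card = 3)
    (h : ∀ g ∈ G.cut X, f g = (1, 1)) : False := by
  have h1 := hf.cut_sum G X
  rw [Finset.sum_congr rfl h, Finset.sum_const, h3] at h1
  revert h1
  decide

/-- The main theorem for `ℤ₂ × ℤ₂`-flows. -/
theorem nearlyK (hB : G.Bridgeless) {f₀ : E → K4} (hf₀ : IsZ G f₀) {e₀ : E}
    (h0 : ∀ g, f₀ g = 0 → g = e₀) : ∃ φ₂ φ₄ : E → ℤ, G.IsHalfFlowPair φ₂ φ₄ := by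
  classical
  have hb := G.cut_card_ne_one hB
  by_cases he : f₀ e₀ = 0
  · have hz : ∀ g, f₀ g = 0 ↔ g = e₀ := fun g => ⟨h0 g, fun h => by rw [h]; exact he⟩
    obtain ⟨f, hf, hfz, hgood⟩ := chain G hb f₀ hf₀ hz
    obtain ⟨κ₀, hκ1, hκ2⟩ := eulerian G.t G.h (univ.filter (fun g => piB (f g) ≠ 0))
      (fun v => even_deg G hf piB v)
    have hκe : κ₀ e₀ = 0 := (hκ1 e₀).2 (by
      simp only [Finset.mem_filter, Finset.mem_univ, true_and, not_not]
      rw [(hfz e₀).2 rfl, map_zero])
    obtain ⟨φ₂, φ₄, h, _⟩ := exists_pair_gen G hb (univ.filter (fun g => piS (f g) ≠ 0))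
      (fun v => even_deg G hf piS v) (fun g => if g = e₀ then 1 else κ₀ g)
      (by
        intro g
        split_ifs
        · left; rfl
        · by_cases hg : g ∈ univ.filter (fun g => piB (f g) ≠ 0)
          · rcases (hκ1 g).1 hg with h | h
            · left; exact h
            · right; left; exact h
          · right; right; exact (hκ1 g).2 hg)
      (by
        intro g hg
        split_ifs with hge
        · exact one_ne_zero
        · simp only [Finset.mem_filter, Finset.mem_univ, true_and] at hg
          rw [piS_ne] at hg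
          have h1 : f g ≠ 0 := fun h => hge ((hfz g).1 h)
          have h2 : f g = (1, 1) := by
            by_contra hne
            exact hg ⟨h1, hne⟩
          have h3 : g ∈ univ.filter (fun g => piB (f g) ≠ 0) := by
            simp only [Finset.mem_filter, Finset.mem_univ, true_and]
            rw [h2]
            decide
          rcases (hκ1 g).1 h3 with h | h <;> rw [h] <;> decide)
      (by
        intro X
        have h1 : ∑ v ∈ X, net G.t G.h κ₀ v = 0 := Finset.sum_eq_zero fun v _ => hκ2 v
        rw [net_sum] at h1 ⊢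
        have h2 : ∑ g, ((if G.t g ∈ X then (if g = e₀ then 1 else κ₀ g) else 0) -
            (if G.h g ∈ X then (if g = e₀ then 1 else κ₀ g) else 0)) =
            ∑ g, ((if G.t g ∈ X then κ₀ g else 0) - (if G.h g ∈ X then κ₀ g else 0)) +
            ∑ g, (if g = e₀ then ((if G.t e₀ ∈ X then 1 else 0) -
              (if G.h e₀ ∈ X then 1 else 0) : ℤ) else 0) := by
          rw [← Finset.sum_add_distrib]
          refine Finset.sum_congr rfl fun g _ => ?_
          by_cases hg : g = e₀
          · subst hg
            simp [hκe]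
          · simp [hg]
        rw [h2, h1, Finset.sum_ite_eq']
        simp only [Finset.mem_univ, if_true, zero_add]
        split_ifs <;> simp)
      (by
        intro X hX
        by_cases hex : ∃ g ∈ G.cut X, g ≠ e₀ ∧ f g ≠ (1, 1)
        · obtain ⟨g, hg, hge, hg1⟩ := hex
          refine ⟨g, Finset.mem_inter.2 ⟨hg, ?_⟩⟩
          simp only [Finset.mem_filter, Finset.mem_univ, true_and]
          rw [piS_ne]
          exact ⟨fun h => hge ((hfz g).1 h), hg1⟩
        · exfalso
          push Not at hex
          by_cases hec : e₀ ∈ G.cut X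
          · obtain ⟨g, hg, hge⟩ : ∃ g ∈ G.cut X, g ≠ e₀ := by
              by_contra hcon
              push Not at hcon
              have : G.cut X ⊆ {e₀} := fun g hg => Finset.mem_singleton.2 (hcon g hg)
              have := Finset.card_le_card this
              rw [Finset.card_singleton] at this
              omega
            have hec' := hec
            simp only [OrGraph.cut, Finset.mem_filter, Finset.mem_univ, true_and] at hec'
            by_cases ht : G.t e₀ ∈ X
            · have hh : G.h e₀ ∉ X := fun h => hec' ⟨fun _ => h, fun _ => ht⟩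
              exact hgood X ht hh hX g hg (hex g hg hge)
            · have hh : G.h e₀ ∈ X := by
                by_contra h
                exact hec' ⟨fun a => absurd a ht, fun a => absurd a h⟩
              exact hgood Xᶜ (by simpa using ht) (by simpa using hh)
                (by rw [compl_cut]; exact hX) g (by rw [compl_cut]; exact hg) (hex g hg hge)
          · exact three_top G hf hX (fun g hg => hex g hg (fun h => hec (h ▸ hg))))
    exact ⟨φ₂, φ₄, h⟩
  · have hz : ∀ g, f₀ g ≠ 0 := fun g h => by
      have h2 := h0 g h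
      rw [h2] at h
      exact he h
    obtain ⟨κ₀, hκ1, hκ2⟩ := eulerian G.t G.h (univ.filter (fun g => piB (f₀ g) ≠ 0))
      (fun v => even_deg G hf₀ piB v)
    obtain ⟨φ₂, φ₄, h, _⟩ := exists_pair_gen G hb (univ.filter (fun g => piS (f₀ g) ≠ 0))
      (fun v => even_deg G hf₀ piS v) κ₀
      (by
        intro g
        by_cases hg : g ∈ univ.filter (fun g => piB (f₀ g) ≠ 0)
        · rcases (hκ1 g).1 hg with h | h
          · left; exact h
          · right; left; exact h
        · right; right; exact (hκ1 g).2 hg)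
      (by
        intro g hg
        simp only [Finset.mem_filter, Finset.mem_univ, true_and] at hg
        rw [piS_ne] at hg
        have h2 : f₀ g = (1, 1) := by
          by_contra hne
          exact hg ⟨hz g, hne⟩
        have h3 : g ∈ univ.filter (fun g => piB (f₀ g) ≠ 0) := by
          simp only [Finset.mem_filter, Finset.mem_univ, true_and]
          rw [h2]
          decide
        rcases (hκ1 g).1 h3 with h | h <;> rw [h] <;> decide)
      (by
        intro X
        rw [Finset.sum_eq_zero fun v _ => hκ2 v]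
        simp)
      (by
        intro X hX
        by_contra hcon
        refine three_top G hf₀ hX fun g hg => ?_
        by_contra hne
        refine hcon ⟨g, Finset.mem_inter.2 ⟨hg, ?_⟩⟩
        simp only [Finset.mem_filter, Finset.mem_univ, true_and]
        rw [piS_ne]
        exact ⟨hz g, hne⟩)
    exact ⟨φ₂, φ₄, h⟩

/-- The main theorem for 4-flows. -/
theorem nearly (hB : G.Bridgeless) {ψ : E → ℤ} (hψ : G.IsKFlow 4 ψ) {e₀ : E}
    (h0 : ∀ g, ψ g = 0 → g = e₀) : ∃ φ₂ φ₄ : E → ℤ, G.IsHalfFlowPair φ₂ φ₄ := by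
  obtain ⟨f₀, hf₀, hz₀⟩ := exists_K4 G hψ
  exact nearlyK G hB hf₀ (e₀ := e₀) fun g hg => h0 g ((hz₀ g).1 hg)

/-- The characterisation for even edge sets whose complement is contained in an edge set that
becomes even by adding one edge `uv`. -/
theorem pair_iff_gen (hB : G.Bridgeless) (F K : Finset E) (hF : ∀ v, Even (G.deg F v))
    (hFK : ∀ g, g ∈ F ∨ g ∈ K) (u v : V)
    (hK : ∀ w, Even (G.deg K w + (if u = w then 1 else 0) + (if v = w then 1 else 0))) :
    (∃ φ₂ φ₄ : E → ℤ, G.IsHalfFlowPair φ₂ φ₄ ∧ ∀ e, φ₂ e ≠ 0 ↔ e ∈ F) ↔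
      ∀ X : Finset V, (G.cut X).card = 3 → (G.cut X ∩ F).Nonempty := by
  classical
  constructor
  · rintro ⟨_, _, h, hs⟩ X hX
    exact G.cut_meets F h hs X hX
  intro h3
  let t' : Option E → V := fun o => o.elim u G.t
  let h' : Option E → V := fun o => o.elim v G.h
  obtain ⟨ψ, hψ1, hψ2⟩ := eulerian t' h' (insertNone K) (by
    intro w
    rw [Finset.card_filter, Finset.card_filter, Finset.sum_insertNone, Finset.sum_insertNone]
    change Even (((if u = w then 1 else 0) + ∑ x ∈ K, if G.t x = w then 1 else 0) +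
      ((if v = w then 1 else 0) + ∑ x ∈ K, if G.h x = w then 1 else 0))
    rw [← Finset.card_filter, ← Finset.card_filter]
    have h1 := hK w
    unfold OrGraph.deg at h1
    have h2 : (if u = w then 1 else 0) + (K.filter (fun e => G.t e = w)).card +
        ((if v = w then 1 else 0) + (K.filter (fun e => G.h e = w)).card) =
        (K.filter (fun e => G.t e = w)).card + (K.filter (fun e => G.h e = w)).card +
          (if u = w then 1 else 0) + (if v = w then 1 else 0) := by ring
    rw [h2]
    exact h1)
  have hnone : ψ none = 1 ∨ ψ none = -1 := (hψ1 none).1 (by simp)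
  refine exists_pair_gen G (G.cut_card_ne_one hB) F hF (fun g => ψ (some g)) ?_ ?_ ?_ h3
  · intro g
    by_cases hg : g ∈ K
    · rcases (hψ1 (some g)).1 (by simpa using hg) with h | h
      · left; exact h
      · right; left; exact h
    · right; right; exact (hψ1 (some g)).2 (by simpa using hg)
  · intro g hg
    have hgK : g ∈ K := (hFK g).resolve_left hg
    rcases (hψ1 (some g)).1 (by simpa using hgK) with h | h <;> rw [h] <;> decide
  · intro X
    have h1 : ∑ w ∈ X, net t' h' ψ w = 0 := Finset.sum_eq_zero fun w _ => hψ2 w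
    rw [net_sum, Fintype.sum_option] at h1
    change ((if u ∈ X then ψ none else 0) - (if v ∈ X then ψ none else 0)) +
      ∑ g, ((if G.t g ∈ X then ψ (some g) else 0) -
        (if G.h g ∈ X then ψ (some g) else 0)) = 0 at h1
    rw [net_sum]
    have h2 : ∑ g, ((if G.t g ∈ X then ψ (some g) else 0) -
        (if G.h g ∈ X then ψ (some g) else 0)) =
        (if v ∈ X then ψ none else 0) - (if u ∈ X then ψ none else 0) := by linarith
    rw [h2]
    rcases hnone with h | h <;> rw [h] <;> split_ifs <;> simp

end Pool.Agent.H179R3.HF
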