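import Pool.Agent.H179R3.HF.Insert

/-!
# The Petersen fragment E
-/

set_option autoImplicit false

namespace Pool.Agent.H179R3.HF
open Finset

theorem fitsE (z : Fin 2 → ℤ) (y : Fin 14 → ℤ)
    (e0 : y 0 = z 0 + y 11)
    (e1 : y 2 + y 3 = z 1)
    (e2 : y 5 + y 6 = y 2)
    (e3 : y 8 + y 9 = y 5)
    (e4 : y 11 + y 12 = y 8)
    (e5 : y 1 = y 0 + y 10)
    (e6 : y 4 = y 3 + y 13)
    (e7 : y 7 = y 1 + y 6)
    (e8 : y 10 = y 4 + y 9)
    (e9 : y 13 = y 7 + y 12)
    : Fits bE tE hE z y := by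
  intro v
  rw [Finset.sum_filter, Finset.sum_filter, Finset.sum_filter]
  fin_cases v <;> simp [Fin.sum_univ_succ, tE, hE, bE] <;> linarith

/-- the conservation equations of the fragment `E` -/
def eqE (z : Fin 2 → ℤ) (y : ℕ → ℤ) : Bool :=
  decide (y 0 = z 0 + y 11) &&
  (decide (y 2 + y 3 = z 1) &&
  (decide (y 5 + y 6 = y 2) &&
  (decide (y 8 + y 9 = y 5) &&
  (decide (y 11 + y 12 = y 8) &&
  (decide (y 1 = y 0 + y 10) &&
  (decide (y 4 = y 3 + y 13) &&
  (decide (y 7 = y 1 + y 6) &&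
  (decide (y 10 = y 4 + y 9) &&
  (decide (y 13 = y 7 + y 12))))))))))

theorem fitsE_of (z : Fin 2 → ℤ) (y : ℕ → ℤ) (h : eqE z y = true) :
    Fits bE tE hE z (fun i => y i) := by
  simp only [eqE, Bool.and_eq_true, decide_eq_true_eq] at h
  obtain ⟨e0, e1, e2, e3, e4, e5, e6, e7, e8, e9⟩ := h
  exact fitsE z (fun i => y i) e0 e1 e2 e3 e4 e5 e6 e7 e8 e9

/-- solutions for the fragment `E` -/
def tabE : List ℕ := [
  169203133799346048, 146198624508623578, 208546499667208903, 126600695468637466,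
  218477881985301541, 130495453443055693, 217442271360422808, 135236428304223996,
  151371557781372486, 173297400195383352, 195212928032395632, 371886576844387501,
  283904148302141653, 370850966219508768, 288645123163309956, 304780252640458446,
  326706095054469312, 348621622891481592]

theorem chkE : ∀ p < 18, (eqE ![(val p).1, -(val p).1] (fun i => (yv (tabE.getD p 0) i).1) &&
    eqE ![(val p).2, -(val p).2] (fun i => (yv (tabE.getD p 0) i).2)) = true := by
  decide +kernel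

theorem extE (z2 z4 : Fin 2 → ℤ) (hok : ∀ d, Ok (z2 d) (z4 d))
    (h2 : z2 0 + z2 1 = 0) (h4 : z4 0 + z4 1 = 0) :
    ∃ y2 y4 : Fin 14 → ℤ, Fits bE tE hE z2 y2 ∧ Fits bE tE hE z4 y4 ∧
      ∀ i, Ok (y2 i) (y4 i) := by
  obtain ⟨p, hp, hpv⟩ := exists_code (hok 0)
  have h := chkE p hp
  rw [Bool.and_eq_true] at h
  obtain ⟨ha, hb⟩ := h
  have e2 : z2 = ![(val p).1, -(val p).1] := by
    ext d; fin_cases d
    · simp [hpv]
    · simp [hpv]; linarith
  have e4 : z4 = ![(val p).2, -(val p).2] := by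
    ext d; fin_cases d
    · simp [hpv]
    · simp [hpv]; linarith
  rw [← e2] at ha
  rw [← e4] at hb
  exact ⟨_, _, fitsE_of _ _ ha, fitsE_of _ _ hb, fun i => yv_ok _ _⟩

end Pool.Agent.H179R3.HF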