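import Pool.Agent.H179R3.HF.Insert

/-!
# The Petersen fragment V
-/

set_option autoImplicit false

namespace Pool.Agent.H179R3.HF
open Finset

theorem fitsV (z : Fin 3 → ℤ) (y : Fin 12 → ℤ)
    (e0 : y 1 + y 2 = z 0)
    (e1 : y 4 + y 5 = y 1)
    (e2 : y 7 + y 8 = y 4)
    (e3 : y 10 = z 1 + y 7)
    (e4 : y 0 = z 2 + y 9)
    (e5 : y 3 = y 2 + y 11)
    (e6 : y 6 = y 0 + y 5)
    (e7 : y 9 = y 3 + y 8)
    (e8 : y 11 = y 6 + y 10)
    : Fits bV tV hV z y := by
  intro v
  rw [Finset.sum_filter, Finset.sum_filter, Finset.sum_filter]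
  fin_cases v <;> simp [Fin.sum_univ_succ, tV, hV, bV] <;> linarith

/-- the conservation equations of the fragment `V` -/
def eqV (z : Fin 3 → ℤ) (y : ℕ → ℤ) : Bool :=
  decide (y 1 + y 2 = z 0) &&
  (decide (y 4 + y 5 = y 1) &&
  (decide (y 7 + y 8 = y 4) &&
  (decide (y 10 = z 1 + y 7) &&
  (decide (y 0 = z 2 + y 9) &&
  (decide (y 3 = y 2 + y 11) &&
  (decide (y 6 = y 0 + y 5) &&
  (decide (y 9 = y 3 + y 8) &&
  (decide (y 11 = y 6 + y 10)))))))))

theorem fitsV_of (z : Fin 3 → ℤ) (y : ℕ → ℤ) (h : eqV z y = true) :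
    Fits bV tV hV z (fun i => y i) := by
  simp only [eqV, Bool.and_eq_true, decide_eq_true_eq] at h
  obtain ⟨e0, e1, e2, e3, e4, e5, e6, e7, e8⟩ := h
  exact fitsV z (fun i => y i) e0 e1 e2 e3 e4 e5 e6 e7 e8

/-- solutions for the fragment `V` -/
def tabV : List (List ℕ) := [
  [0, 0, 0, 0, 462241172801808, 462449939832720, 462658706863632, 211165541752911,
   451320834029907, 0, 0, 463702542018192, 463911309049104, 464120076080016, 236158574253704,
   452782203246291, 0, 0],
  [0, 0, 0, 0, 0, 0, 519169675225430, 519378442256342, 519587209287254, 85803698348044,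
   522531205360021, 0, 0, 520631044441814, 520839811472726, 521048578503638, 110796730848837,
   523992574576405],
  [0, 0, 0, 0, 391262145142052, 390424025681011, 390632792711923, 390841559742835, 0, 0, 0,
   392723514358436, 391885394897395, 392094161928307, 392302928959219, 0, 0, 0],
  [0, 0, 0, 0, 0, 0, 0, 333338785473816, 644126162524128, 644334929555040, 644543696585952, 0, 0,
   0, 334800154690200, 645587531740512, 645796298771424, 646005065802336],
  [158702696705250, 0, 36734285110987, 0, 0, 0, 0, 0, 0, 0, 0, 0, 0, 0, 875835272130074,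
   1076364336420892, 0, 0],
  [93640679380425, 0, 36932644407511, 0, 0, 0, 0, 0, 0, 0, 0, 0, 0, 1147552599829384,
   1008525459115360, 0, 0, 0],
  [165249715563147, 22849881281876, 37131003704035, 0, 0, 0, 0, 0, 0, 0, 0, 0, 1079713722523852,
   940113549754351, 0, 0, 0, 1080343700505962],
  [165448074859671, 208678144621448, 219388223393767, 154737996087348, 0, 0, 0, 0, 0, 0, 0,
   1011874845218320, 889918200400434, 0, 0, 0, 1012504823200430, 890545729502416],
  [165646434156195, 211488819920659, 0, 154936355383872, 0, 0, 0, 0, 0, 0, 0, 1143785071538576,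
   0, 0, 0, 944665945894898, 1144621978106911, 0],
  [0, 29595259436365, 0, 155134714680396, 0, 0, 0, 0, 0, 0, 0, 0, 0, 0, 876463413976986,
   1076783100801379, 0, 0],
  [0, 29793618732889, 0, 82930610055891, 0, 0, 0, 0, 0, 0, 0, 0, 0, 1147761986743590,
   1008944223495847, 0, 0, 0],
  [160091211780918, 0, 38122800186655, 0, 0, 0, 0, 400963130991350, 601492195282168, 0, 0, 0, 0,
   0, 0, 0, 0, 0],
  [95029194456093, 0, 38321159483179, 0, 0, 0, 672680458690660, 533653317976636, 0, 0, 0, 0, 0,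
   0, 0, 0, 0, 0],
  [166638230638815, 24238396357544, 38519518779703, 0, 0, 604841581385128, 465241408615627, 0, 0,
   0, 605471559367238, 0, 0, 0, 0, 0, 0, 0],
  [166836589935339, 210066659697116, 220776738469435, 156126511163016, 537002704079596,
   415046059261710, 0, 0, 0, 537632682061706, 415673588363692, 0, 0, 0, 0, 0, 0, 0],
  [167034949231863, 212877334996327, 0, 156324870459540, 668912930399852, 0, 0, 0,
   469793804756174, 669749836968187, 0, 0, 0, 0, 0, 0, 0, 0],
  [0, 30983774512033, 0, 156523229756064, 0, 0, 0, 401591272838262, 601910959662655, 0, 0, 0, 0,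
   0, 0, 0, 0, 0],
  [0, 31182133808557, 0, 84319125131559, 0, 0, 672889845604866, 534072082357123, 0, 0, 0, 0, 0,
   0, 0, 0, 0, 0]]

theorem chkV : ∀ p < 18, ∀ q < 18,
    (!(okb (-(val p).1 - (val q).1, -(val p).2 - (val q).2)) ||
    (eqV ![(val p).1, (val q).1, -(val p).1 - (val q).1]
      (fun i => (yv ((tabV.getD p []).getD q 0) i).1) &&
    eqV ![(val p).2, (val q).2, -(val p).2 - (val q).2]
      (fun i => (yv ((tabV.getD p []).getD q 0) i).2))) = true := by
  decide +kernel

theorem extV (z2 z4 : Fin 3 → ℤ) (hok : ∀ d, Ok (z2 d) (z4 d))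
    (h2 : z2 0 + z2 1 + z2 2 = 0) (h4 : z4 0 + z4 1 + z4 2 = 0) :
    ∃ y2 y4 : Fin 12 → ℤ, Fits bV tV hV z2 y2 ∧ Fits bV tV hV z4 y4 ∧
      ∀ i, Ok (y2 i) (y4 i) := by
  obtain ⟨p, hp, hpv⟩ := exists_code (hok 0)
  obtain ⟨q, hq, hqv⟩ := exists_code (hok 1)
  have h := chkV p hp q hq
  have e2 : z2 = ![(val p).1, (val q).1, -(val p).1 - (val q).1] := by
    ext d; fin_cases d
    · simp [hpv]
    · simp [hqv]
    · simp [hpv, hqv]; linarith
  have e4 : z4 = ![(val p).2, (val q).2, -(val p).2 - (val q).2] := by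
    ext d; fin_cases d
    · simp [hpv]
    · simp [hqv]
    · simp [hpv, hqv]; linarith
  have ho : okb (-(val p).1 - (val q).1, -(val p).2 - (val q).2) = true := by
    apply okb_of
    have := hok 2
    rw [e2, e4] at this
    simpa using this
  rw [← e2, ← e4, ho, Bool.not_true, Bool.false_or, Bool.and_eq_true] at h
  obtain ⟨ha, hb⟩ := h
  exact ⟨_, _, fitsV_of _ _ ha, fitsV_of _ _ hb, fun i => yv_ok _ _⟩

end Pool.Agent.H179R3.HF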