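import Pool.Agent.H160R2.HF.Defs

/-!
# Sums with the Petersen graph: definitions

The Petersen graph `P` has vertices `0, ..., 9` and edges `01, 12, 23, 34, 40` (outer cycle),
`05, 16, 27, 38, 49` (spokes) and `57, 79, 96, 68, 85` (inner cycle).
-/

set_option autoImplicit false

universe u v

namespace Pool.Agent.H179R3.HF
open Finset Pool.Agent.H160R2.HF

/-- The graph with vertex set `W ⊕ N` whose edges are the outer edges `Eo` (inside `W`), the
connecting edges `D` (the edge `d` joins `a d` in `W` to `b d` in `N`) and the inner edges `I`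
(inside `N`). -/
def glue {W N Eo D I : Type*} (t₀ h₀ : Eo → W) (a : D → W) (b : D → N) (t₁ h₁ : I → N) :
    OrGraph (W ⊕ N) (Eo ⊕ D ⊕ I) where
  t := Sum.elim (fun e => Sum.inl (t₀ e))
    (Sum.elim (fun d => Sum.inl (a d)) (fun i => Sum.inr (t₁ i)))
  h := Sum.elim (fun e => Sum.inl (h₀ e))
    (Sum.elim (fun d => Sum.inr (b d)) (fun i => Sum.inr (h₁ i)))

/-- The graph with vertex set `W` whose edges are the outer edges `Eo` and one further edge from
`p r` to `q r` for every `r` in `R`. -/
def addEdges {W Eo R : Type*} (t₀ h₀ : Eo → W) (p q : R → W) : OrGraph W (Eo ⊕ R) where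
  t := Sum.elim t₀ p
  h := Sum.elim h₀ q

/-- tails of the edges of the fragment `E`: `P` minus the edge `01`; the connecting edges are attached at `0, 1` -/
def tE : Fin 14 → Fin 10 := ![0, 5, 1, 1, 6, 2, 2, 7, 3, 3, 8, 4, 4, 9]

/-- heads of the edges of the fragment `E` -/
def hE : Fin 14 → Fin 10 := ![5, 7, 2, 6, 8, 3, 7, 9, 4, 8, 5, 0, 9, 6]

/-- attachment vertices of the connecting edges of the fragment `E` -/
def bE : Fin 2 → Fin 10 := ![0, 1]

/-- tails of the edges of the fragment `V`: `P` minus the vertex `0` (the vertex `i + 1` of `P` is called `i`); the connecting edges are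
attached at the three neighbours `1, 4, 5` of the vertex `0` of `P`, now called `0, 3, 4` -/
def tV : Fin 12 → Fin 9 := ![4, 0, 0, 5, 1, 1, 6, 2, 2, 7, 3, 8]

/-- heads of the edges of the fragment `V` -/
def hV : Fin 12 → Fin 9 := ![6, 1, 5, 7, 2, 6, 8, 3, 7, 4, 8, 5]

/-- attachment vertices of the connecting edges of the fragment `V` -/
def bV : Fin 3 → Fin 9 := ![0, 3, 4]

/-- tails of the edges of the fragment `D`: `P` minus the adjacent vertices `0, 1` (the vertex `i + 2` of `P` is called `i`); the first two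
connecting edges are attached at the neighbours `4, 5` of `0`, the last two at the neighbours
`2, 6` of `1`, now called `2, 3` and `0, 4` -/
def tD : Fin 10 → Fin 8 := ![3, 4, 0, 0, 5, 1, 1, 6, 2, 7]

/-- heads of the edges of the fragment `D` -/
def hD : Fin 10 → Fin 8 := ![5, 6, 1, 5, 7, 2, 6, 3, 7, 4]

/-- attachment vertices of the connecting edges of the fragment `D` -/
def bD : Fin 4 → Fin 8 := ![2, 3, 0, 4]

/-- tails of the edges of the fragment `H`: `P` minus the edges `01, 23` (at distance one); the first two connecting edges are attached at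
`0, 1`, the last two at `2, 3` -/
def tH : Fin 13 → Fin 10 := ![0, 5, 1, 1, 6, 2, 7, 3, 3, 8, 4, 4, 9]

/-- heads of the edges of the fragment `H` -/
def hH : Fin 13 → Fin 10 := ![5, 7, 2, 6, 8, 7, 9, 4, 8, 5, 0, 9, 6]

/-- attachment vertices of the connecting edges of the fragment `H` -/
def bH : Fin 4 → Fin 10 := ![0, 1, 2, 3]

/-- tails of the edges of the fragment `J`: `P` minus the edges `01, 79` (at distance two); the first two connecting edges are attached at
`0, 1`, the last two at `7, 9` -/
def tJ : Fin 13 → Fin 10 := ![0, 5, 1, 1, 6, 2, 2, 3, 3, 8, 4, 4, 9]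

/-- heads of the edges of the fragment `J` -/
def hJ : Fin 13 → Fin 10 := ![5, 7, 2, 6, 8, 3, 7, 4, 8, 5, 0, 9, 6]

/-- attachment vertices of the connecting edges of the fragment `J` -/
def bJ : Fin 4 → Fin 10 := ![0, 1, 7, 9]

/-- `PetersenSum G K`: the graph `K` arises from the graph `G` by a sequence of the following
operations.

* `relabel`: renaming the vertices and edges and changing the reference orientation.
* `edge`: the edge `a 0, a 1` is replaced by the Petersen graph minus an edge.
* `vertex`: the vertex of degree three joined to `a 0, a 1, a 2` is replaced by the Petersen graph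
  minus a vertex.
* `dotLeft`: the two edges `a 0, a 1` and `a 2, a 3` are replaced by the Petersen graph minus two
  adjacent vertices (the dot product of `G` and the Petersen graph).
* `dotRight`, `dotRight'`: the edge `u v`, where `u` is joined to `v, a 0, a 1` and `v` is joined to
  `u, a 2, a 3`, is replaced by the Petersen graph minus two disjoint edges (at distance one or
  two, respectively; the dot products of the Petersen graph and `G`). -/
inductive PetersenSum : ∀ {V V' : Type u} {E E' : Type v}, OrGraph V E → OrGraph V' E' → Prop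
  | relabel {V V' : Type u} {E E' : Type v} (G : OrGraph V E) (K : OrGraph V' E') (f : V ≃ V')
      (g : E ≃ E') (hfg : ∀ e, (K.t (g e) = f (G.t e) ∧ K.h (g e) = f (G.h e)) ∨
        (K.t (g e) = f (G.h e) ∧ K.h (g e) = f (G.t e))) : PetersenSum G K
  | trans {V V' V'' : Type u} {E E' E'' : Type v} {G : OrGraph V E} {K : OrGraph V' E'}
      {L : OrGraph V'' E''} : PetersenSum G K → PetersenSum K L → PetersenSum G L
  | edge {W : Type u} {Eo : Type v} (t₀ h₀ : Eo → W) (a : Fin 2 → W) :
      PetersenSum (addEdges t₀ h₀ ![a 0] ![a 1]) (glue t₀ h₀ a bE tE hE)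
  | vertex {W : Type u} {Eo : Type v} (t₀ h₀ : Eo → W) (a : Fin 3 → W) :
      PetersenSum (glue t₀ h₀ a (![0, 0, 0] : Fin 3 → Fin 1) (![] : Fin 0 → Fin 1) ![])
        (glue t₀ h₀ a bV tV hV)
  | dotLeft {W : Type u} {Eo : Type v} (t₀ h₀ : Eo → W) (a : Fin 4 → W) :
      PetersenSum (addEdges t₀ h₀ ![a 0, a 2] ![a 1, a 3]) (glue t₀ h₀ a bD tD hD)
  | dotRight {W : Type u} {Eo : Type v} (t₀ h₀ : Eo → W) (a : Fin 4 → W) :
      PetersenSum (glue t₀ h₀ a (![0, 0, 1, 1] : Fin 4 → Fin 2) (![0] : Fin 1 → Fin 2) ![1])
        (glue t₀ h₀ a bH tH hH)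
  | dotRight' {W : Type u} {Eo : Type v} (t₀ h₀ : Eo → W) (a : Fin 4 → W) :
      PetersenSum (glue t₀ h₀ a (![0, 0, 1, 1] : Fin 4 → Fin 2) (![0] : Fin 1 → Fin 2) ![1])
        (glue t₀ h₀ a bJ tJ hJ)

end Pool.Agent.H179R3.HF
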