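import Pool.Agent.H179R3.HF.PoleE
import Pool.Agent.H179R3.HF.PoleV
import Pool.Agent.H179R3.HF.PoleD
import Pool.Agent.H179R3.HF.PoleH
import Pool.Agent.H179R3.HF.PoleJ

/-!
# Sums with the Petersen graph preserve `1/2`-flow-pairs
-/

set_option autoImplicit false

universe u v

namespace Pool.Agent.H179R3.HF
open Finset Pool.Agent.H160R2.HF

/-- finite and has a `1/2`-flow-pair -/
def HasPair {V : Type u} {E : Type v} (G : OrGraph V E) : Prop :=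
  ∃ (_ : Fintype V) (_ : Fintype E) (_ : DecidableEq V), ∃ φ₂ φ₄ : E → ℤ, G.IsHalfFlowPair φ₂ φ₄

theorem hasPair_iff {V : Type u} {E : Type v} [i1 : Fintype V] [i2 : Fintype E]
    [i3 : DecidableEq V] (G : OrGraph V E) :
    HasPair G ↔ ∃ φ₂ φ₄ : E → ℤ, G.IsHalfFlowPair φ₂ φ₄ := by
  constructor
  · rintro ⟨j1, j2, j3, h⟩
    obtain rfl := Subsingleton.elim i1 j1
    obtain rfl := Subsingleton.elim i2 j2
    obtain rfl := Subsingleton.elim i3 j3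
    exact h
  · intro h
    exact ⟨i1, i2, i3, h⟩

theorem isFlow_iff_sum {V : Type u} {E : Type v} [Fintype V] [Fintype E] [DecidableEq V]
    (G : OrGraph V E) (φ : E → ℤ) : G.IsFlow φ ↔
      ∀ v, ∑ e, ((if G.t e = v then φ e else 0) - (if G.h e = v then φ e else 0)) = 0 := by
  unfold OrGraph.IsFlow
  refine forall_congr' fun v => ?_
  rw [Finset.sum_sub_distrib, Finset.sum_filter, Finset.sum_filter, sub_eq_zero]

theorem ok_neg {a b : ℤ} (h : Ok a b) : Ok (-a) (-b) := by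
  obtain ⟨h1, h2, h3⟩ := h
  refine ⟨by rwa [abs_neg], by rwa [abs_neg], fun h => ?_⟩
  rw [abs_neg]
  exact h3 (by linarith)

theorem isFlow_relabel {V V' : Type u} {E E' : Type v} [Fintype V] [Fintype E] [DecidableEq V]
    [Fintype V'] [Fintype E'] [DecidableEq V'] (G : OrGraph V E) (K : OrGraph V' E') (f : V ≃ V')
    (g : E ≃ E') (s : E → ℤ) (hs : ∀ e, (s e = 1 ∧ K.t (g e) = f (G.t e) ∧
      K.h (g e) = f (G.h e)) ∨ (s e = -1 ∧ K.t (g e) = f (G.h e) ∧ K.h (g e) = f (G.t e)))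
    (φ : E → ℤ) (h : G.IsFlow φ) : K.IsFlow (fun e' => s (g.symm e') * φ (g.symm e')) := by
  rw [isFlow_iff_sum] at h ⊢
  intro v'
  refine Eq.trans ?_ (h (f.symm v'))
  rw [← g.sum_comp]
  refine Finset.sum_congr rfl fun e _ => ?_
  rw [g.symm_apply_apply]
  have key : ∀ v, (f v = v' ↔ v = f.symm v') := fun v => by
    constructor
    · rintro rfl; simp
    · rintro rfl; simp
  rcases hs e with ⟨h1, h2, h3⟩ | ⟨h1, h2, h3⟩
  · rw [h1, h2, h3]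
    simp only [key, one_mul]
  · rw [h1, h2, h3]
    simp only [key]
    split_ifs <;> ring

theorem hasPair_relabel {V V' : Type u} {E E' : Type v} (G : OrGraph V E) (K : OrGraph V' E')
    (f : V ≃ V') (g : E ≃ E') (hfg : ∀ e, (K.t (g e) = f (G.t e) ∧ K.h (g e) = f (G.h e)) ∨
        (K.t (g e) = f (G.h e) ∧ K.h (g e) = f (G.t e))) (h : HasPair G) : HasPair K := by
  classical
  obtain ⟨i1, i2, i3, φ₂, φ₄, hp⟩ := h
  have : Fintype V' := Fintype.ofEquiv V f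
  have : Fintype E' := Fintype.ofEquiv E g
  rw [hasPair_iff]
  have : ∀ e, ∃ s : ℤ, (s = 1 ∧ K.t (g e) = f (G.t e) ∧
      K.h (g e) = f (G.h e)) ∨ (s = -1 ∧ K.t (g e) = f (G.h e) ∧ K.h (g e) = f (G.t e)) := by
    intro e
    rcases hfg e with h | h
    · exact ⟨1, Or.inl ⟨rfl, h⟩⟩
    · exact ⟨-1, Or.inr ⟨rfl, h⟩⟩
  choose s hs using this
  rw [pair_iff_ok] at hp
  obtain ⟨h2, h4, hok⟩ := hp
  refine ⟨fun e' => s (g.symm e') * φ₂ (g.symm e'), fun e' => s (g.symm e') * φ₄ (g.symm e'), ?_⟩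
  rw [pair_iff_ok]
  refine ⟨isFlow_relabel G K f g s hs φ₂ h2, isFlow_relabel G K f g s hs φ₄ h4, fun e' => ?_⟩
  rcases hs (g.symm e') with ⟨h, -⟩ | ⟨h, -⟩
  · rw [h, one_mul, one_mul]; exact hok _
  · rw [h, neg_one_mul, neg_one_mul]; exact ok_neg (hok _)

theorem isFlow_addEdges {W Eo R : Type*} [Fintype W] [Fintype Eo] [Fintype R] [DecidableEq W]
    (t₀ h₀ : Eo → W) (p q : R → W) (φ : Eo ⊕ R → ℤ) : (addEdges t₀ h₀ p q).IsFlow φ ↔
      ∀ w, (∑ e with t₀ e = w, φ (Sum.inl e)) + ∑ r with p r = w, φ (Sum.inr r) =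
        (∑ e with h₀ e = w, φ (Sum.inl e)) + ∑ r with q r = w, φ (Sum.inr r) := by
  unfold OrGraph.IsFlow
  have h1 : ∀ w, (∑ e with (addEdges t₀ h₀ p q).t e = w, φ e) =
      (∑ e with t₀ e = w, φ (Sum.inl e)) + ∑ r with p r = w, φ (Sum.inr r) := by
    intro w
    rw [Finset.sum_filter, Fintype.sum_sum_type, Finset.sum_filter, Finset.sum_filter]
    rfl
  have h2 : ∀ w, (∑ e with (addEdges t₀ h₀ p q).h e = w, φ e) =
      (∑ e with h₀ e = w, φ (Sum.inl e)) + ∑ r with q r = w, φ (Sum.inr r) := by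
    intro w
    rw [Finset.sum_filter, Fintype.sum_sum_type, Finset.sum_filter, Finset.sum_filter]
    rfl
  simp only [h1, h2]

theorem pair_glue {W : Type u} {Eo : Type v} {D N I : Type} [Fintype W] [Fintype Eo]
    [DecidableEq W] [Fintype D] [Fintype N] [Fintype I] [DecidableEq N] (t₀ h₀ : Eo → W)
    (a : D → W) (b : D → N) (t₁ h₁ : I → N) (x2 x4 : Eo → ℤ) (z2 z4 : D → ℤ)
    (hx : ∀ e, Ok (x2 e) (x4 e)) (hz : ∀ d, Ok (z2 d) (z4 d))
    (o2 : ∀ w, (∑ e with t₀ e = w, x2 e) + ∑ d with a d = w, z2 d = ∑ e with h₀ e = w, x2 e)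
    (o4 : ∀ w, (∑ e with t₀ e = w, x4 e) + ∑ d with a d = w, z4 d = ∑ e with h₀ e = w, x4 e)
    (hy : ∃ y2 y4 : I → ℤ, Fits b t₁ h₁ z2 y2 ∧ Fits b t₁ h₁ z4 y4 ∧ ∀ i, Ok (y2 i) (y4 i)) :
    HasPair (glue t₀ h₀ a b t₁ h₁) := by
  rw [hasPair_iff]
  obtain ⟨y2, y4, g2, g4, gok⟩ := hy
  refine ⟨Sum.elim x2 (Sum.elim z2 y2), Sum.elim x4 (Sum.elim z4 y4), ?_⟩
  rw [pair_iff_ok, isFlow_glue, isFlow_glue]
  refine ⟨⟨o2, g2⟩, ⟨o4, g4⟩, ?_⟩
  rintro (e | d | i)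
  · exact hx _
  · exact hz _
  · exact gok i

theorem pair_of_glue {W : Type u} {Eo : Type v} {D N I : Type} [Fintype D] [Fintype N]
    [Fintype I] [DecidableEq N] (t₀ h₀ : Eo → W)
    (a : D → W) (b : D → N) (t₁ h₁ : I → N) (h : HasPair (glue t₀ h₀ a b t₁ h₁)) :
    ∃ (_ : Fintype W) (_ : Fintype Eo) (_ : DecidableEq W) (x2 x4 : Eo → ℤ) (z2 z4 : D → ℤ),
    (∀ e, Ok (x2 e) (x4 e)) ∧ (∀ d, Ok (z2 d) (z4 d)) ∧
    (∀ w, (∑ e with t₀ e = w, x2 e) + ∑ d with a d = w, z2 d = ∑ e with h₀ e = w, x2 e) ∧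
    (∀ w, (∑ e with t₀ e = w, x4 e) + ∑ d with a d = w, z4 d = ∑ e with h₀ e = w, x4 e) ∧
    (∃ y2 y4 : I → ℤ, Fits b t₁ h₁ z2 y2 ∧ Fits b t₁ h₁ z4 y4 ∧ ∀ i, Ok (y2 i) (y4 i)) := by
  classical
  obtain ⟨⟨j1⟩, ⟨j2⟩⟩ : Nonempty (Fintype W) ∧ Nonempty (Fintype Eo) := by
    obtain ⟨i1, i2, -, -⟩ := h
    exact ⟨⟨Fintype.ofInjective (Sum.inl : W → W ⊕ N) Sum.inl_injective⟩,
      ⟨Fintype.ofInjective (Sum.inl : Eo → Eo ⊕ D ⊕ I) Sum.inl_injective⟩⟩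
  refine ⟨j1, j2, inferInstance, ?_⟩
  rw [hasPair_iff] at h
  obtain ⟨φ₂, φ₄, hp⟩ := h
  rw [pair_iff_ok, isFlow_glue, isFlow_glue] at hp
  obtain ⟨⟨o2, f2⟩, ⟨o4, f4⟩, hok⟩ := hp
  exact ⟨fun e => φ₂ (Sum.inl e), fun e => φ₄ (Sum.inl e), fun d => φ₂ (Sum.inr (Sum.inl d)),
    fun d => φ₄ (Sum.inr (Sum.inl d)), fun e => hok _, fun d => hok _, o2, o4,
    fun i => φ₂ (Sum.inr (Sum.inr i)), fun i => φ₄ (Sum.inr (Sum.inr i)), f2, f4, fun i => hok _⟩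

theorem pair_of_addEdges {W : Type u} {Eo : Type v} {R : Type} [Fintype R]
    (t₀ h₀ : Eo → W) (p q : R → W) (h : HasPair (addEdges t₀ h₀ p q)) :
    ∃ (_ : Fintype W) (_ : Fintype Eo) (_ : DecidableEq W) (x2 x4 : Eo → ℤ) (z2 z4 : R → ℤ),
    (∀ e, Ok (x2 e) (x4 e)) ∧ (∀ d, Ok (z2 d) (z4 d)) ∧
    (∀ w, (∑ e with t₀ e = w, x2 e) + ∑ r with p r = w, z2 r =
      (∑ e with h₀ e = w, x2 e) + ∑ r with q r = w, z2 r) ∧
    (∀ w, (∑ e with t₀ e = w, x4 e) + ∑ r with p r = w, z4 r =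
      (∑ e with h₀ e = w, x4 e) + ∑ r with q r = w, z4 r) := by
  classical
  obtain ⟨⟨i1⟩, ⟨j2⟩⟩ : Nonempty (Fintype W) ∧ Nonempty (Fintype Eo) := by
    obtain ⟨i1, i2, -, -⟩ := h
    exact ⟨⟨i1⟩, ⟨Fintype.ofInjective (Sum.inl : Eo → Eo ⊕ R) Sum.inl_injective⟩⟩
  refine ⟨i1, j2, inferInstance, ?_⟩
  rw [hasPair_iff] at h
  obtain ⟨φ₂, φ₄, hp⟩ := h
  rw [pair_iff_ok, isFlow_addEdges, isFlow_addEdges] at hp
  obtain ⟨o2, o4, hok⟩ := hp
  exact ⟨fun e => φ₂ (Sum.inl e), fun e => φ₄ (Sum.inl e), fun d => φ₂ (Sum.inr d),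
    fun d => φ₄ (Sum.inr d), fun e => hok _, fun d => hok _, o2, o4⟩

theorem ite_neg_zero' (c : Prop) [Decidable c] (x : ℤ) :
    (if c then -x else 0) = -(if c then x else 0) := by
  split_ifs <;> simp

theorem hasPair_edge {W : Type u} {Eo : Type v} (t₀ h₀ : Eo → W) (a : Fin 2 → W)
    (h : HasPair (addEdges t₀ h₀ ![a 0] ![a 1])) : HasPair (glue t₀ h₀ a bE tE hE) := by
  obtain ⟨_, _, _, x2, x4, z2, z4, hx, hz, o2, o4⟩ := pair_of_addEdges _ _ _ _ h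
  have hok : ∀ d, Ok ((![z2 0, -z2 0] : Fin 2 → ℤ) d) ((![z4 0, -z4 0] : Fin 2 → ℤ) d) := by
    intro d
    fin_cases d
    · exact hz 0
    · exact ok_neg (hz 0)
  refine pair_glue t₀ h₀ a bE tE hE x2 x4 ![z2 0, -z2 0] ![z4 0, -z4 0] hx hok ?_ ?_
    (extE _ _ hok (by simp) (by simp))
  · intro w
    have := o2 w
    simp only [Finset.sum_filter, Fin.sum_univ_one, Fin.sum_univ_two, Fin.sum_univ_four] at this ⊢
    simp [ite_neg_zero'] at this ⊢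
    linarith
  · intro w
    have := o4 w
    simp only [Finset.sum_filter, Fin.sum_univ_one, Fin.sum_univ_two, Fin.sum_univ_four] at this ⊢
    simp [ite_neg_zero'] at this ⊢
    linarith

theorem hasPair_dotLeft {W : Type u} {Eo : Type v} (t₀ h₀ : Eo → W) (a : Fin 4 → W)
    (h : HasPair (addEdges t₀ h₀ ![a 0, a 2] ![a 1, a 3])) :
    HasPair (glue t₀ h₀ a bD tD hD) := by
  obtain ⟨_, _, _, x2, x4, z2, z4, hx, hz, o2, o4⟩ := pair_of_addEdges (R := Fin 2) _ _ _ _ h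
  have hok : ∀ d, Ok ((![z2 0, -z2 0, z2 1, -z2 1] : Fin 4 → ℤ) d)
      ((![z4 0, -z4 0, z4 1, -z4 1] : Fin 4 → ℤ) d) := by
    intro d
    fin_cases d
    · exact hz 0
    · exact ok_neg (hz 0)
    · exact hz 1
    · exact ok_neg (hz 1)
  refine pair_glue t₀ h₀ a bD tD hD x2 x4 ![z2 0, -z2 0, z2 1, -z2 1]
    ![z4 0, -z4 0, z4 1, -z4 1] hx hok ?_ ?_
    (extD _ _ hok (by simp) (by simp) (by simp) (by simp))
  · intro w
    have := o2 w
    simp only [Finset.sum_filter, Fin.sum_univ_one, Fin.sum_univ_two, Fin.sum_univ_four] at this ⊢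
    simp only [Matrix.cons_val] at this ⊢
    by_cases c0 : a 0 = w <;> by_cases c1 : a 1 = w <;> by_cases c2 : a 2 = w <;>
      by_cases c3 : a 3 = w <;> simp [c0, c1, c2, c3] at this ⊢ <;> linarith
  · intro w
    have := o4 w
    simp only [Finset.sum_filter, Fin.sum_univ_one, Fin.sum_univ_two, Fin.sum_univ_four] at this ⊢
    simp only [Matrix.cons_val] at this ⊢
    by_cases c0 : a 0 = w <;> by_cases c1 : a 1 = w <;> by_cases c2 : a 2 = w <;>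
      by_cases c3 : a 3 = w <;> simp [c0, c1, c2, c3] at this ⊢ <;> linarith

theorem hasPair_vertex {W : Type u} {Eo : Type v} (t₀ h₀ : Eo → W) (a : Fin 3 → W)
    (h : HasPair (glue t₀ h₀ a (![0, 0, 0] : Fin 3 → Fin 1) (![] : Fin 0 → Fin 1) ![])) :
    HasPair (glue t₀ h₀ a bV tV hV) := by
  obtain ⟨_, _, _, x2, x4, z2, z4, hx, hz, o2, o4, y2, y4, f2, f4, -⟩ := pair_of_glue _ _ _ _ _ _ h
  have s2 := f2 0
  have s4 := f4 0
  simp only [Finset.sum_filter, Fin.sum_univ_succ, Fin.sum_univ_zero] at s2 s4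
  simp at s2 s4
  exact pair_glue t₀ h₀ a bV tV hV x2 x4 z2 z4 hx hz o2 o4
    (extV _ _ hz (by linarith) (by linarith))

theorem hasPair_dotRight {W : Type u} {Eo : Type v} (t₀ h₀ : Eo → W) (a : Fin 4 → W)
    (h : HasPair (glue t₀ h₀ a (![0, 0, 1, 1] : Fin 4 → Fin 2) (![0] : Fin 1 → Fin 2) ![1])) :
    HasPair (glue t₀ h₀ a bH tH hH) ∧ HasPair (glue t₀ h₀ a bJ tJ hJ) := by
  obtain ⟨_, _, _, x2, x4, z2, z4, hx, hz, o2, o4, y2, y4, f2, f4, hy⟩ :=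
    pair_of_glue _ _ _ _ _ _ h
  have s2 := f2 0
  have s4 := f4 0
  have r2 := f2 1
  have r4 := f4 1
  simp only [Finset.sum_filter, Fin.sum_univ_succ, Fin.sum_univ_zero] at s2 s4 r2 r4
  simp at s2 s4 r2 r4
  have hw : Ok (z2 0 + z2 1) (z4 0 + z4 1) := by
    rw [← s2, ← s4]; exact hy 0
  exact ⟨pair_glue t₀ h₀ a bH tH hH x2 x4 z2 z4 hx hz o2 o4
    (extH _ _ hz hw (by linarith) (by linarith)),
    pair_glue t₀ h₀ a bJ tJ hJ x2 x4 z2 z4 hx hz o2 o4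
    (extJ _ _ hz hw (by linarith) (by linarith))⟩

theorem hasPair_of_petersenSum {V V' : Type u} {E E' : Type v} {G : OrGraph V E}
    {K : OrGraph V' E'} (h : PetersenSum G K) : HasPair G → HasPair K := by
  induction h with
  | relabel G K f g hfg => exact hasPair_relabel G K f g hfg
  | trans _ _ ih1 ih2 => exact fun h => ih2 (ih1 h)
  | edge t₀ h₀ a => exact hasPair_edge t₀ h₀ a
  | vertex t₀ h₀ a => exact hasPair_vertex t₀ h₀ a
  | dotLeft t₀ h₀ a => exact hasPair_dotLeft t₀ h₀ a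
  | dotRight t₀ h₀ a => exact fun h => (hasPair_dotRight t₀ h₀ a h).1
  | dotRight' t₀ h₀ a => exact fun h => (hasPair_dotRight t₀ h₀ a h).2

end Pool.Agent.H179R3.HF
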